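import Pool.Agent.H73.PT.InA

/-!
# [H73 PT INN] the inner critical points: the measure of the bad pairs

Let `B = {(c, a) | a ∈ Bd T m q r H c} ⊆ ℂ × ℂ`. It is closed: the projection along the compact ball `‖x‖ ≤ r` of a set given by closed conditions continuous in `(c,a,x)`
(`isClosedMap_fst_of_compactSpace` for `(ℂ × ℂ) × closedBall 0 r`), so measurable. By `crit_ne`, `crit_cx` for every `a`: `{c | (c,a) ∈ B} ⊆ cx '' S_a`,
`S_a = {x | (x, VV x + a) ∈ D}`, `D = {(x,y) | x ≠ 0, ‖x‖ ≤ r, 2 r ≤ ‖y‖ ≤ H, ‖T y + cx x q y^m + (y - VV x)‖ ≤ H}` (measurable: Borel functions; `cx` is measurable, a quotient;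
note `a = y - VV x`, `T_c y = T y + c q y^m`). By `img_le` (`U = {x ≠ 0}`), Tonelli, translation invariance (`a ↦ VV x + a`) and Tonelli again
`vol² B = ∫⁻ a, vol {c | (c,a) ∈ B} ≤ ∫⁻ a, ∫⁻ x in S_a, ‖cx'‖² = ∫⁻ x, ‖cx' x‖² vol {y | (x,y) ∈ D} = ∫⁻ y, ∫⁻ x in {x | (x,y) ∈ D}, ‖cx' x‖²`
`≤ vol (closedBall 0 H) * (the bound of inA)` (`Measure.prod_apply`, `Measure.prod_apply_symm`, `lintegral_lintegral_swap`, `measurable_deriv`).
By Markov (`mul_meas_ge_le_lintegral`) `vol {c | 1 < vol (Bd c)} ≤ ∫⁻ c, vol {a | (c,a) ∈ B} = vol² B`.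
-/

set_option autoImplicit false

namespace H73.PT

open MeasureTheory Polynomial

/-- the set of the bad pairs -/
def BB (T : ℂ[X]) (m : ℕ) (q r H : ℝ) : Set (ℂ × ℂ) := {p | p.2 ∈ Bd T m q r H p.1}

theorem inn_Tc_ev (T : ℂ[X]) (m : ℕ) (q : ℝ) (c x : ℂ) :
    (Tc T m q c).eval x = T.eval x + c * q * x ^ m := by
  simp [Tc]

theorem inn_Tc_der (T : ℂ[X]) (m : ℕ) (q : ℝ) (c x : ℂ) :
    (Tc T m q c).derivative.eval x = T.derivative.eval x + c * q * (m * x ^ (m - 1)) := by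
  simp [Tc, derivative_X_pow]

theorem inn_BB_closed (T : ℂ[X]) (m : ℕ) (q r H : ℝ) : IsClosed (BB T m q r H) := by
  have : CompactSpace (Metric.closedBall (0 : ℂ) r) := isCompact_iff_compactSpace.1 (isCompact_closedBall 0 r)
  let E : Set ((ℂ × ℂ) × Metric.closedBall (0 : ℂ) r) :=
    {z | T.derivative.eval (z.2 : ℂ) + z.1.1 * q * (m * (z.2 : ℂ) ^ (m - 1)) = 0 ∧
      2 * r ≤ ‖T.eval (z.2 : ℂ) + z.1.1 * q * (z.2 : ℂ) ^ m + z.1.2‖ ∧
      ‖T.eval (z.2 : ℂ) + z.1.1 * q * (z.2 : ℂ) ^ m + z.1.2‖ ≤ H ∧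
      ‖T.eval (T.eval (z.2 : ℂ) + z.1.1 * q * (z.2 : ℂ) ^ m + z.1.2) +
        z.1.1 * q * (T.eval (z.2 : ℂ) + z.1.1 * q * (z.2 : ℂ) ^ m + z.1.2) ^ m + z.1.2‖ ≤ H}
  have hev : Continuous fun z : (ℂ × ℂ) × Metric.closedBall (0 : ℂ) r =>
      T.eval (z.2 : ℂ) + z.1.1 * q * (z.2 : ℂ) ^ m + z.1.2 := by
    have h1 : Continuous fun z : (ℂ × ℂ) × Metric.closedBall (0 : ℂ) r => T.eval (z.2 : ℂ) :=
      T.continuous.comp (continuous_subtype_val.comp continuous_snd)
    fun_prop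
  have hE : IsClosed E := by
    have e1 : IsClosed {z : (ℂ × ℂ) × Metric.closedBall (0 : ℂ) r |
        T.derivative.eval (z.2 : ℂ) + z.1.1 * q * (m * (z.2 : ℂ) ^ (m - 1)) = 0} := by
      refine isClosed_eq ?_ continuous_const
      have h1 : Continuous fun z : (ℂ × ℂ) × Metric.closedBall (0 : ℂ) r => T.derivative.eval (z.2 : ℂ) :=
        T.derivative.continuous.comp (continuous_subtype_val.comp continuous_snd)
      fun_prop
    have e2 : IsClosed {z : (ℂ × ℂ) × Metric.closedBall (0 : ℂ) r |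
        2 * r ≤ ‖T.eval (z.2 : ℂ) + z.1.1 * q * (z.2 : ℂ) ^ m + z.1.2‖} :=
      isClosed_le continuous_const hev.norm
    have e3 : IsClosed {z : (ℂ × ℂ) × Metric.closedBall (0 : ℂ) r |
        ‖T.eval (z.2 : ℂ) + z.1.1 * q * (z.2 : ℂ) ^ m + z.1.2‖ ≤ H} :=
      isClosed_le hev.norm continuous_const
    have e4 : IsClosed {z : (ℂ × ℂ) × Metric.closedBall (0 : ℂ) r |
        ‖T.eval (T.eval (z.2 : ℂ) + z.1.1 * q * (z.2 : ℂ) ^ m + z.1.2) +
        z.1.1 * q * (T.eval (z.2 : ℂ) + z.1.1 * q * (z.2 : ℂ) ^ m + z.1.2) ^ m + z.1.2‖ ≤ H} := by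
      refine isClosed_le ?_ continuous_const
      have h1 := T.continuous.comp hev
      have h2 : Continuous fun z : (ℂ × ℂ) × Metric.closedBall (0 : ℂ) r =>
        z.1.1 * q * (T.eval (z.2 : ℂ) + z.1.1 * q * (z.2 : ℂ) ^ m + z.1.2) ^ m :=
        Continuous.mul (by fun_prop) (hev.pow m)
      exact ((h1.add h2).add (by fun_prop)).norm
    exact e1.inter (e2.inter (e3.inter e4))
  have hB : BB T m q r H = Prod.fst '' E := by
    ext p
    simp only [BB, Bd, Set.mem_ofPred_eq, Set.mem_image, E, inn_Tc_ev, inn_Tc_der]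
    constructor
    · rintro ⟨x, hx, h⟩
      exact ⟨(p, ⟨x, by simpa using hx⟩), h, rfl⟩
    · rintro ⟨⟨p', ⟨x, hx⟩⟩, h, rfl⟩
      exact ⟨x, by simpa using hx, h⟩
  rw [hB]
  exact isClosedMap_fst_of_compactSpace _ hE

/-- the pairs `(x, y)` -/
def DD (T : ℂ[X]) (m : ℕ) (q r H : ℝ) : Set (ℂ × ℂ) :=
  {p | (p.1 ≠ 0 ∧ ‖p.1‖ ≤ r ∧
    ‖T.eval p.2 + cx T m q p.1 * q * p.2 ^ m + (p.2 - (VV T m).eval p.1)‖ ≤ H) ∧ 2 * r ≤ ‖p.2‖ ∧ ‖p.2‖ ≤ H}

theorem inn_cx_meas (T : ℂ[X]) (m : ℕ) (q : ℝ) : Measurable (cx T m q) := by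
  unfold cx
  have h1 : Measurable fun x : ℂ => T.derivative.eval x := T.derivative.continuous.measurable
  exact h1.neg.div (by fun_prop)

theorem inn_DD_meas (T : ℂ[X]) (m : ℕ) (q r H : ℝ) : MeasurableSet (DD T m q r H) := by
  have h1 : Measurable fun p : ℂ × ℂ => T.eval p.2 := T.continuous.measurable.comp measurable_snd
  have h2 : Measurable fun p : ℂ × ℂ => (VV T m).eval p.1 := (VV T m).continuous.measurable.comp measurable_fst
  have h3 : Measurable fun p : ℂ × ℂ => cx T m q p.1 := (inn_cx_meas T m q).comp measurable_fst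
  have h4 : Measurable fun p : ℂ × ℂ =>
      ‖T.eval p.2 + cx T m q p.1 * q * p.2 ^ m + (p.2 - (VV T m).eval p.1)‖ :=
    ((h1.add ((h3.mul_const _).mul (measurable_snd.pow_const m))).add (measurable_snd.sub h2)).norm
  have e1 : MeasurableSet {p : ℂ × ℂ | p.1 ≠ 0} :=
    (measurableSet_eq_fun measurable_fst measurable_const).compl
  have e2 : MeasurableSet {p : ℂ × ℂ | ‖p.1‖ ≤ r} := measurableSet_le measurable_fst.norm measurable_const
  have e3 : MeasurableSet {p : ℂ × ℂ |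
      ‖T.eval p.2 + cx T m q p.1 * q * p.2 ^ m + (p.2 - (VV T m).eval p.1)‖ ≤ H} :=
    measurableSet_le h4 measurable_const
  have e4 : MeasurableSet {p : ℂ × ℂ | 2 * r ≤ ‖p.2‖} := measurableSet_le measurable_const measurable_snd.norm
  have e5 : MeasurableSet {p : ℂ × ℂ | ‖p.2‖ ≤ H} := measurableSet_le measurable_snd.norm measurable_const
  exact (e1.inter (e2.inter e3)).inter (e4.inter e5)

/-- the sections of the bad pairs -/
theorem inn_sec_le {T : ℂ[X]} (h1 : T.coeff 1 ≠ 0) {m : ℕ} (hm : 2 ≤ m) {q r H : ℝ} (hq : 0 < q) (a : ℂ) :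
    {c : ℂ | (c, a) ∈ BB T m q r H} ⊆ cx T m q '' {x : ℂ | (x, (VV T m).eval x + a) ∈ DD T m q r H} := by
  rintro c ⟨x, hx, hd, hy1, hy2, hy3⟩
  have hx0 := crit_ne hm h1 hd
  obtain ⟨hc, hv⟩ := crit_cx hm hq hx0 hd
  simp only at hy1 hy2 hy3 hc hv
  rw [hv] at hy1 hy2 hy3
  refine ⟨x, ⟨⟨hx0, hx, ?_⟩, hy1, hy2⟩, hc.symm⟩
  rw [inn_Tc_ev] at hy3
  simp only
  rw [← hc]
  have e : T.eval ((VV T m).eval x + a) + c * q * ((VV T m).eval x + a) ^ m +
      ((VV T m).eval x + a - (VV T m).eval x) =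
      T.eval ((VV T m).eval x + a) + c * q * ((VV T m).eval x + a) ^ m + a := by ring
  rw [e]
  exact hy3

theorem inn_le {d m : ℕ} {T : ℂ[X]} (hT : T.natDegree ≤ d) (h1 : T.coeff 1 ≠ 0) (hm : 2 ≤ m) {q r H : ℝ}
    (hq : 0 < q) (hr : 0 < r) (hH : 0 ≤ H) :
    volume {c : ℂ | 1 < volume (Bd T m q r H c)} ≤
      ENNReal.ofReal (4 * (d + m) * Real.pi ^ 2 * H ^ 4 / (q * (2 * r) ^ m) ^ 2) := by
  have hBm : MeasurableSet (BB T m q r H) := (inn_BB_closed T m q r H).measurableSet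
  have hDm := inn_DD_meas T m q r H
  set g : ℂ → ENNReal := fun x => ENNReal.ofReal (‖deriv (cx T m q) x‖ ^ 2) with hg
  have hgm : Measurable g := ((measurable_deriv (cx T m q)).norm.pow_const 2).ennreal_ofReal
  set G : ℂ × ℂ → ENNReal := (DD T m q r H).indicator fun p => g p.1 with hG
  have hGm : Measurable G := (hgm.comp measurable_fst).indicator hDm
  set M : ENNReal := ENNReal.ofReal (4 * (d + m) * Real.pi * H ^ 2 / (q * (2 * r) ^ m) ^ 2) with hM
  have hV : Measurable fun x : ℂ => (VV T m).eval x := (VV T m).continuous.measurable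
  have hU : IsOpen {x : ℂ | x ≠ 0} := isOpen_ne
  -- sections
  have hsec : ∀ a : ℂ, volume {c : ℂ | (c, a) ∈ BB T m q r H} ≤ ∫⁻ x, G (x, (VV T m).eval x + a) := by
    intro a
    have hSm : MeasurableSet {x : ℂ | (x, (VV T m).eval x + a) ∈ DD T m q r H} :=
      (measurable_id.prodMk (hV.add_const a)) hDm
    have hSU : {x : ℂ | (x, (VV T m).eval x + a) ∈ DD T m q r H} ⊆ {x : ℂ | x ≠ 0} := by
      intro x hx
      exact hx.1.1
    calc volume {c : ℂ | (c, a) ∈ BB T m q r H}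
        ≤ volume (cx T m q '' {x : ℂ | (x, (VV T m).eval x + a) ∈ DD T m q r H}) :=
          measure_mono (inn_sec_le h1 hm hq a)
      _ ≤ ∫⁻ x in {x : ℂ | (x, (VV T m).eval x + a) ∈ DD T m q r H}, g x :=
          img_le hU hSm hSU (cx_diff hm hq)
      _ = ∫⁻ x, G (x, (VV T m).eval x + a) := by
          rw [← lintegral_indicator hSm]
          rfl
  -- Tonelli
  have hprod : (volume.prod volume) (BB T m q r H) ≤ ∫⁻ y, ∫⁻ x, G (x, y) := by
    rw [Measure.prod_apply_symm hBm]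
    calc ∫⁻ a, volume ((fun c => (c, a)) ⁻¹' BB T m q r H)
        ≤ ∫⁻ a, ∫⁻ x, G (x, (VV T m).eval x + a) := lintegral_mono hsec
      _ = ∫⁻ x, ∫⁻ a, G (x, (VV T m).eval x + a) := by
          refine lintegral_lintegral_swap ?_
          refine (hGm.comp ?_).aemeasurable
          exact measurable_snd.prodMk ((hV.comp measurable_snd).add measurable_fst)
      _ = ∫⁻ x, ∫⁻ y, G (x, y) := by
          refine lintegral_congr fun x => ?_
          exact lintegral_add_left_eq_self (fun y => G (x, y)) _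
      _ = ∫⁻ y, ∫⁻ x, G (x, y) := lintegral_lintegral_swap hGm.aemeasurable
  have hin : ∀ y : ℂ, ∫⁻ x, G (x, y) ≤ (Metric.closedBall (0 : ℂ) H).indicator (fun _ => M) y := by
    intro y
    by_cases hy : 2 * r ≤ ‖y‖ ∧ ‖y‖ ≤ H
    · rw [Set.indicator_of_mem (by simpa using hy.2)]
      have hSm : MeasurableSet {x : ℂ | x ≠ 0 ∧ ‖x‖ ≤ r ∧
          ‖T.eval y + cx T m q x * q * y ^ m + (y - (VV T m).eval x)‖ ≤ H} := by
        have h2 : MeasurableSet ((fun x : ℂ => (x, y)) ⁻¹' DD T m q r H) := measurable_prodMk_right hDm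
        convert h2 using 1
        ext x
        simp only [DD, Set.mem_preimage, Set.mem_ofPred_eq]
        exact ⟨fun h => ⟨h, hy⟩, fun h => h.1⟩
      calc ∫⁻ x, G (x, y) = ∫⁻ x, {x : ℂ | x ≠ 0 ∧ ‖x‖ ≤ r ∧
            ‖T.eval y + cx T m q x * q * y ^ m + (y - (VV T m).eval x)‖ ≤ H}.indicator g x := by
            refine lintegral_congr fun x => ?_
            by_cases hx : x ∈ {x : ℂ | x ≠ 0 ∧ ‖x‖ ≤ r ∧
              ‖T.eval y + cx T m q x * q * y ^ m + (y - (VV T m).eval x)‖ ≤ H}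
            · rw [Set.indicator_of_mem hx, hG, Set.indicator_of_mem]
              exact ⟨hx, hy⟩
            · rw [Set.indicator_of_notMem hx, hG, Set.indicator_of_notMem]
              exact fun h => hx h.1
        _ = ∫⁻ x in {x : ℂ | x ≠ 0 ∧ ‖x‖ ≤ r ∧
            ‖T.eval y + cx T m q x * q * y ^ m + (y - (VV T m).eval x)‖ ≤ H}, g x :=
            lintegral_indicator hSm _
        _ ≤ M := inA hT hm hq hr hH y hy.1
    · have h0 : ∀ x : ℂ, G (x, y) = 0 := by
        intro x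
        rw [hG, Set.indicator_of_notMem]
        exact fun h => hy h.2
      simp only [h0, lintegral_zero]
      exact zero_le
  have htot : (volume.prod volume) (BB T m q r H) ≤
      ENNReal.ofReal (4 * (d + m) * Real.pi ^ 2 * H ^ 4 / (q * (2 * r) ^ m) ^ 2) := by
    calc (volume.prod volume) (BB T m q r H) ≤ ∫⁻ y, ∫⁻ x, G (x, y) := hprod
      _ ≤ ∫⁻ y, (Metric.closedBall (0 : ℂ) H).indicator (fun _ => M) y := lintegral_mono hin
      _ = M * volume (Metric.closedBall (0 : ℂ) H) := lintegral_indicator_const measurableSet_closedBall _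
      _ = ENNReal.ofReal (4 * (d + m) * Real.pi ^ 2 * H ^ 4 / (q * (2 * r) ^ m) ^ 2) := by
          rw [Complex.volume_closedBall, hM]
          have e1 : ENNReal.ofReal H ^ 2 * (NNReal.pi : ENNReal) = ENNReal.ofReal (H ^ 2 * Real.pi) := by
            rw [ENNReal.ofReal_mul (by positivity), ENNReal.ofReal_pow hH]
            congr 1
            rw [ENNReal.ofReal]
            congr 1
            exact (Real.toNNReal_coe (r := NNReal.pi)).symm
          rw [e1, ← ENNReal.ofReal_mul (by positivity)]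
          congr 1
          ring
  calc volume {c : ℂ | 1 < volume (Bd T m q r H c)}
      ≤ volume {c : ℂ | 1 ≤ volume ((fun a => (c, a)) ⁻¹' BB T m q r H)} :=
        measure_mono fun c hc => by
          have h : 1 < volume (Bd T m q r H c) := hc
          exact h.le
    _ = 1 * volume {c : ℂ | 1 ≤ volume ((fun a => (c, a)) ⁻¹' BB T m q r H)} := (one_mul _).symm
    _ ≤ ∫⁻ c, volume ((fun a => (c, a)) ⁻¹' BB T m q r H) :=
        mul_meas_ge_le_lintegral (measurable_measure_prodMk_left hBm) 1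
    _ = (volume.prod volume) (BB T m q r H) := (Measure.prod_apply hBm).symm
    _ ≤ _ := htot

end H73.PT
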