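import Pool.Agent.H73.PT.Out
import Pool.Agent.H73.PT.Inn

/-!
# [H73 PT CHA] the choice of `c`

The ball `‖c‖ < 1/4` has area `π/16` (`Complex.volume_ball`); by `out_le` (with `H'`) and `inn_le` it is not covered by the two bad sets.
-/

set_option autoImplicit false

namespace H73.PT

open MeasureTheory Polynomial

theorem choose_c {d m : ℕ} {T : ℂ[X]} (hT : T.natDegree ≤ d) (h1 : T.coeff 1 ≠ 0) (hm : 2 ≤ m) {q r H H' : ℝ}
    (hq : 0 < q) (hr : 0 < r) (hH : 0 ≤ H) (hH' : 0 ≤ H')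
    (hA : d * Real.pi * H' ^ 2 / (q * r ^ m) ^ 2 +
      4 * (d + m) * Real.pi ^ 2 * H ^ 4 / (q * (2 * r) ^ m) ^ 2 < Real.pi / 16) :
    ∃ c : ℂ, ‖c‖ < 1 / 4 ∧
      (∀ x : ℂ, r ≤ ‖x‖ → (Tc T m q c).derivative.eval x = 0 → H' < ‖(Tc T m q c).eval x‖) ∧
      volume (Bd T m q r H c) ≤ 1 := by
  have hA1 := out_le hT hm hq hr hH'
  have hA2 := inn_le hT h1 hm hq hr hH
  obtain ⟨c, hc, hc1, hc2⟩ : ∃ c ∈ Metric.ball (0 : ℂ) (1 / 4),
      c ∉ {c : ℂ | ∃ x : ℂ, r ≤ ‖x‖ ∧ (Tc T m q c).derivative.eval x = 0 ∧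
        ‖(Tc T m q c).eval x‖ ≤ H'} ∧ c ∉ {c : ℂ | 1 < volume (Bd T m q r H c)} := by
    by_contra hcon
    have hsub : Metric.ball (0 : ℂ) (1 / 4) ⊆
        {c : ℂ | ∃ x : ℂ, r ≤ ‖x‖ ∧ (Tc T m q c).derivative.eval x = 0 ∧
          ‖(Tc T m q c).eval x‖ ≤ H'} ∪ {c : ℂ | 1 < volume (Bd T m q r H c)} := by
      intro c hc
      by_contra hcc
      rw [Set.mem_union, not_or] at hcc
      exact hcon ⟨c, hc, hcc.1, hcc.2⟩
    have h2 := (measure_mono hsub).trans ((measure_union_le _ _).trans (add_le_add hA1 hA2))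
    have e1 : 0 ≤ d * Real.pi * H' ^ 2 / (q * r ^ m) ^ 2 := by
      have := Real.pi_pos
      positivity
    have e2 : 0 ≤ 4 * (d + m) * Real.pi ^ 2 * H ^ 4 / (q * (2 * r) ^ m) ^ 2 := by
      have := Real.pi_pos
      positivity
    rw [← ENNReal.ofReal_add e1 e2, Complex.volume_ball] at h2
    have h3 : ENNReal.ofReal (1 / 4) ^ 2 * (NNReal.pi : ENNReal) =
        ENNReal.ofReal (Real.pi / 16) := by
      rw [← ENNReal.ofReal_pow (by norm_num), ← NNReal.coe_real_pi, ENNReal.ofReal,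
        ← ENNReal.coe_mul, ENNReal.ofReal, ENNReal.coe_inj]
      ext
      push_cast
      rw [Real.coe_toNNReal _ (by norm_num), Real.coe_toNNReal _ (by positivity)]
      ring
    rw [h3] at h2
    have h4 := (ENNReal.ofReal_lt_ofReal_iff (by positivity)).2 hA
    exact absurd h2 (not_le.2 h4)
  refine ⟨c, ?_, ?_, ?_⟩
  · simpa using hc
  · intro x hx hx'
    by_contra h
    exact hc1 ⟨x, hx, hx', not_lt.1 h⟩
  · exact not_lt.1 hc2

end H73.PT
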