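import Pool.Agent.H73.PT.Def

/-!
# [H73 PT CHB] the choice of the constant `a`

`Z` = the set of the critical points of `S` with `‖x‖ ≤ r`: by `hN` it is finite with at most `N` elements (otherwise it has a finite subset with `N + 1` elements:
`Set.Infinite.exists_subset_card_eq`, `Set.exists_subset_card_eq`...). The closed ball of radius `ρ` has area `π ρ² > N π (2 r)² + 1 ≥ vol (⋃_{x ∈ Z} closedBall (- S x) (2 r)) + vol B`,
so it is not contained in this union (`measure_mono`, `measure_union_le`, `measure_biUnion_finset_le`, `Complex.volume_closedBall`).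
-/

set_option autoImplicit false

namespace H73.PT

open MeasureTheory Polynomial

private theorem chb_vol (z : ℂ) {s : ℝ} (hs : 0 ≤ s) :
    volume (Metric.closedBall z s) = ENNReal.ofReal (Real.pi * s ^ 2) := by
  rw [Complex.volume_closedBall, ← ENNReal.ofReal_pow hs, ← NNReal.coe_real_pi, ENNReal.ofReal,
    ← ENNReal.coe_mul, ENNReal.ofReal, ENNReal.coe_inj]
  ext
  push_cast
  rw [Real.coe_toNNReal _ (by positivity), Real.coe_toNNReal _ (by positivity)]
  ring

theorem choose_a {S : ℂ[X]} {N : ℕ} {r ρ : ℝ} (hr : 0 < r) (hρ : 0 ≤ ρ)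
    (hN : ∀ Z : Finset ℂ, (∀ x ∈ Z, ‖x‖ ≤ r ∧ S.derivative.eval x = 0) → Z.card ≤ N)
    {B : Set ℂ} (hB : volume B ≤ 1) (hA : N * Real.pi * (2 * r) ^ 2 + 1 < Real.pi * ρ ^ 2) :
    ∃ a : ℂ, ‖a‖ ≤ ρ ∧ a ∉ B ∧ ∀ x : ℂ, ‖x‖ ≤ r → S.derivative.eval x = 0 → 2 * r < ‖S.eval x + a‖ := by
  classical
  have hfin : {x : ℂ | ‖x‖ ≤ r ∧ S.derivative.eval x = 0}.Finite := by
    by_contra hinf
    obtain ⟨t, ht, hc⟩ := (show {x : ℂ | ‖x‖ ≤ r ∧ S.derivative.eval x = 0}.Infinite from
      hinf).exists_subset_card_eq (N + 1)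
    have := hN t fun x hx => ht hx
    omega
  have hc : hfin.toFinset.card ≤ N := hN _ fun x hx => (Set.Finite.mem_toFinset hfin).1 hx
  obtain ⟨a, ha, ha1, ha2⟩ : ∃ a ∈ Metric.closedBall (0 : ℂ) ρ, a ∉ B ∧
      a ∉ ⋃ x ∈ hfin.toFinset, Metric.closedBall (-(S.eval x)) (2 * r) := by
    by_contra hcon
    have hsub : Metric.closedBall (0 : ℂ) ρ ⊆
        (⋃ x ∈ hfin.toFinset, Metric.closedBall (-(S.eval x)) (2 * r)) ∪ B := by
      intro a ha
      by_contra hcc
      rw [Set.mem_union, not_or] at hcc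
      exact hcon ⟨a, ha, hcc.2, hcc.1⟩
    have h2 := (measure_mono hsub).trans ((measure_union_le _ _).trans
      (add_le_add (measure_biUnion_finset_le (μ := volume) hfin.toFinset _) hB))
    have h3 : ∑ x ∈ hfin.toFinset, volume (Metric.closedBall (-(S.eval x)) (2 * r)) ≤
        ENNReal.ofReal (N * Real.pi * (2 * r) ^ 2) := by
      rw [Finset.sum_congr rfl fun x _ => chb_vol (-(S.eval x)) (by positivity : 0 ≤ 2 * r),
        Finset.sum_const, nsmul_eq_mul, mul_assoc (N : ℝ), ENNReal.ofReal_mul (Nat.cast_nonneg N),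
        ENNReal.ofReal_natCast]
      gcongr
    have h4 := h2.trans (add_le_add_left h3 1)
    rw [chb_vol _ hρ] at h4
    have h5 : ENNReal.ofReal (N * Real.pi * (2 * r) ^ 2) + 1 =
        ENNReal.ofReal (N * Real.pi * (2 * r) ^ 2 + 1) := by
      rw [ENNReal.ofReal_add (by have := Real.pi_pos; positivity) zero_le_one, ENNReal.ofReal_one]
    rw [h5] at h4
    have h6 : 0 < Real.pi * ρ ^ 2 := lt_of_le_of_lt (by have := Real.pi_pos; positivity) hA
    exact absurd h4 (not_le.2 ((ENNReal.ofReal_lt_ofReal_iff h6).2 hA))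
  refine ⟨a, by simpa using ha, ha1, fun x hx hx' => ?_⟩
  by_contra h
  apply ha2
  rw [Set.mem_iUnion₂]
  refine ⟨x, (Set.Finite.mem_toFinset hfin).2 ⟨hx, hx'⟩, ?_⟩
  rw [mem_closedBall_iff_norm, sub_neg_eq_add, add_comm]
  exact not_lt.1 h

end H73.PT
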