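import Mathlib

/-!
# [H73 PT CHC] the numbers
-/

set_option autoImplicit false

namespace H73.PT

theorem hA_num {d m : ℕ} (hd : 2 ≤ d) (hmd : m ≤ d) {A B H' : ℝ}
    (h9 : 512 * (d : ℝ) ^ 5 ≤ 9 ^ m) (h94 : 10 ^ 4 * (d : ℝ) ^ 9 ≤ 9 ^ m * 4 ^ m)
    (hA : (9 : ℝ) ^ m / 2 ≤ A) (hB : (9 : ℝ) ^ m * 4 ^ m / 2 ≤ B) (hH0 : 0 ≤ H') (hH : H' ≤ 2 * (d : ℝ) ^ 2) :
    d * Real.pi * H' ^ 2 / A + 4 * (d + m) * Real.pi ^ 2 * ((d : ℝ) ^ 2) ^ 4 / B < Real.pi / 16 := by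
  have hpi := Real.pi_pos
  have hpi4 := Real.pi_le_four
  have hd0 : (0 : ℝ) < d := by
    have : 0 < d := by omega
    exact_mod_cast this
  have hm' : (m : ℝ) ≤ d := by exact_mod_cast hmd
  have hm0 : (0 : ℝ) ≤ m := Nat.cast_nonneg m
  have hd5 : (0 : ℝ) < (d : ℝ) ^ 5 := by positivity
  have hd9 : (0 : ℝ) < (d : ℝ) ^ 9 := by positivity
  have hA' : 256 * (d : ℝ) ^ 5 ≤ A := by linarith
  have hB' : 5000 * (d : ℝ) ^ 9 ≤ B := by linarith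
  have hA0 : 0 < A := by linarith
  have hB0 : 0 < B := by linarith
  have h1 : d * Real.pi * H' ^ 2 / A ≤ Real.pi / 64 := by
    rw [div_le_iff₀ hA0]
    have e1 : H' ^ 2 ≤ 4 * (d : ℝ) ^ 4 := by
      calc H' ^ 2 ≤ (2 * (d : ℝ) ^ 2) ^ 2 := pow_le_pow_left₀ hH0 hH 2
        _ = 4 * (d : ℝ) ^ 4 := by ring
    calc d * Real.pi * H' ^ 2 ≤ d * Real.pi * (4 * (d : ℝ) ^ 4) := by gcongr
      _ = Real.pi / 64 * (256 * (d : ℝ) ^ 5) := by ring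
      _ ≤ Real.pi / 64 * A := by gcongr
  have h2 : 4 * (d + m) * Real.pi ^ 2 * ((d : ℝ) ^ 2) ^ 4 / B ≤ Real.pi / 64 := by
    rw [div_le_iff₀ hB0]
    calc 4 * (d + m) * Real.pi ^ 2 * ((d : ℝ) ^ 2) ^ 4
        ≤ 4 * (d + d) * Real.pi ^ 2 * ((d : ℝ) ^ 2) ^ 4 := by gcongr
      _ = Real.pi * (8 * Real.pi) * (d : ℝ) ^ 9 := by ring
      _ ≤ Real.pi * (5000 / 64) * (d : ℝ) ^ 9 := by
          have : 8 * Real.pi ≤ 5000 / 64 := by linarith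
          gcongr
      _ = Real.pi / 64 * (5000 * (d : ℝ) ^ 9) := by ring
      _ ≤ Real.pi / 64 * B := by gcongr
  linarith

theorem card_num {d m N : ℕ} (hm : 2 ≤ m) {lam w r : ℝ} (hlam : 0 < lam) (hw : 0 < w)
    (hr : r = 3 * √m) (hwr : 1 ≤ w * r ^ m)
    (h24 : 24 * √(d * m) * Real.exp (85 * m) ≤ 2 ^ (200 * m))
    (hN : (2 : ℝ) ^ N * (m * (lam * w / 4) * r ^ (m - 1)) ≤ 2 * √d * lam * Real.exp ((4 * r + 1) ^ 2 / 2)) :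
    N ≤ 200 * m := by
  have hm2 : (2 : ℝ) ≤ m := by exact_mod_cast hm
  have hm0 : (0 : ℝ) < m := by linarith
  have hsm : 0 < √(m : ℝ) := Real.sqrt_pos.2 hm0
  have hsq : √(m : ℝ) ^ 2 = m := Real.sq_sqrt hm0.le
  have hr0 : 0 < r := by rw [hr]; positivity
  have hex : (4 * r + 1) ^ 2 / 2 ≤ 85 * m := by
    rw [hr]
    have e : (4 * (3 * √(m : ℝ)) + 1) ^ 2 / 2 = 72 * √(m : ℝ) ^ 2 + 12 * √(m : ℝ) + 1 / 2 := by ring
    rw [e, hsq]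
    have h2 : 2 * √(m : ℝ) ≤ m + 1 := by
      have := sq_nonneg (√(m : ℝ) - 1)
      linarith [this, hsq, show (√(m : ℝ) - 1) ^ 2 = √(m : ℝ) ^ 2 - 2 * √(m : ℝ) + 1 by ring]
    linarith
  have e1 : r ^ (m - 1) * r = r ^ m := by
    rw [← pow_succ]
    congr 1
    omega
  have h0 : (2 : ℝ) ^ N * (m * (lam * w / 4) * r ^ (m - 1)) ≤ 2 * √d * lam * Real.exp (85 * m) :=
    hN.trans (mul_le_mul_of_nonneg_left (Real.exp_le_exp.2 hex) (by positivity))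
  have h1 : (2 : ℝ) ^ N * (m * (lam * w / 4) * r ^ (m - 1)) * r ≤
      2 * √d * lam * Real.exp (85 * m) * r := mul_le_mul_of_nonneg_right h0 hr0.le
  have h2 : (2 : ℝ) ^ N * (m * (lam / 4)) ≤ 2 * √d * lam * Real.exp (85 * m) * r := by
    calc (2 : ℝ) ^ N * (m * (lam / 4)) = (2 : ℝ) ^ N * (m * (lam / 4)) * 1 := by ring
      _ ≤ (2 : ℝ) ^ N * (m * (lam / 4)) * (w * r ^ m) :=
          mul_le_mul_of_nonneg_left hwr (by positivity)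
      _ = (2 : ℝ) ^ N * (m * (lam * w / 4) * r ^ (m - 1)) * r := by rw [← e1]; ring
      _ ≤ _ := h1
  have h3 : (2 : ℝ) ^ N * m ≤ 8 * √d * Real.exp (85 * m) * r := by
    have e2 : (2 : ℝ) ^ N * (m * (lam / 4)) = lam / 4 * ((2 : ℝ) ^ N * m) := by ring
    have e3 : 2 * √d * lam * Real.exp (85 * m) * r = lam / 4 * (8 * √d * Real.exp (85 * m) * r) := by ring
    rw [e2, e3] at h2
    exact le_of_mul_le_mul_left h2 (by positivity)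
  have h4 : (2 : ℝ) ^ N ≤ 2 ^ (200 * m) := by
    calc (2 : ℝ) ^ N = 2 ^ N * 1 := by ring
      _ ≤ 2 ^ N * m := mul_le_mul_of_nonneg_left (by linarith) (by positivity)
      _ ≤ 8 * √d * Real.exp (85 * m) * r := h3
      _ = 24 * √(d * m) * Real.exp (85 * m) := by
          rw [hr, Real.sqrt_mul (by positivity)]
          ring
      _ ≤ _ := h24
  exact (pow_le_pow_iff_right₀ (by norm_num)).1 h4

/-- the choice of `λ` -/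
theorem lam_ex {F D : ℝ} (hF : 0 ≤ F) (hD : 0 < D) :
    ∃ lam : ℝ, 1 ≤ lam ∧ F ≤ D * lam ^ 2 ∧ lam ^ 2 ≤ 1 + F / D := by
  have hFd : 0 ≤ F / D := div_nonneg hF hD.le
  refine ⟨max 1 (√(F / D)), le_max_left _ _, ?_, ?_⟩
  · have h2 : F / D ≤ (max 1 (√(F / D))) ^ 2 := by
      calc F / D = √(F / D) ^ 2 := (Real.sq_sqrt hFd).symm
        _ ≤ _ := pow_le_pow_left₀ (Real.sqrt_nonneg _) (le_max_right _ _) 2
    rw [div_le_iff₀ hD] at h2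
    linarith
  · rcases le_total (√(F / D)) 1 with h | h
    · rw [max_eq_left h]; linarith
    · rw [max_eq_right h, Real.sq_sqrt hFd]; linarith

/-- `q r^m` -/
theorem qr_num {m : ℕ} {lam w r : ℝ} (hlam : 1 ≤ lam) (hr : r ^ 2 = 9 * m)
    (hwm : (9 : ℝ) ^ m / 2 ≤ w ^ 2 * (9 * m : ℝ) ^ m) :
    (9 : ℝ) ^ m / 2 ≤ (lam * w * r ^ m) ^ 2 ∧ (9 : ℝ) ^ m * 4 ^ m / 2 ≤ (lam * w * (2 * r) ^ m) ^ 2 := by
  have hrm : (r ^ m) ^ 2 = (9 * m : ℝ) ^ m := by rw [← pow_mul, mul_comm m 2, pow_mul, hr]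
  have hlamsq : 1 ≤ lam ^ 2 := one_le_pow₀ hlam
  have h9 : (0 : ℝ) < 9 ^ m := by positivity
  have hpos : 0 ≤ w ^ 2 * (9 * m : ℝ) ^ m := by linarith
  have hA : (9 : ℝ) ^ m / 2 ≤ (lam * w * r ^ m) ^ 2 := by
    calc (9 : ℝ) ^ m / 2 ≤ 1 * (w ^ 2 * (9 * m : ℝ) ^ m) := by linarith
      _ ≤ lam ^ 2 * (w ^ 2 * (9 * m : ℝ) ^ m) := mul_le_mul_of_nonneg_right hlamsq hpos
      _ = (lam * w * r ^ m) ^ 2 := by rw [← hrm]; ring
  refine ⟨hA, ?_⟩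
  have e : (lam * w * (2 * r) ^ m) ^ 2 = (lam * w * r ^ m) ^ 2 * 4 ^ m := by
    rw [mul_pow 2 r m]
    have : ((4 : ℝ)) ^ m = (2 ^ m) ^ 2 := by
      rw [← pow_mul, mul_comm m 2, pow_mul]; norm_num
    rw [this]; ring
  rw [e]
  calc (9 : ℝ) ^ m * 4 ^ m / 2 = (9 : ℝ) ^ m / 2 * 4 ^ m := by ring
    _ ≤ _ := mul_le_mul_of_nonneg_right hA (by positivity)

theorem wr_num {m : ℕ} (hm : 1 ≤ m) {w r : ℝ} (hw : 0 < w) (hr0 : 0 < r) (hr : r ^ 2 = 9 * m)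
    (hwm : (9 : ℝ) ^ m / 2 ≤ w ^ 2 * (9 * m : ℝ) ^ m) : 1 ≤ w * r ^ m := by
  have h := (qr_num le_rfl hr hwm).1
  rw [one_mul] at h
  have h9m : (9 : ℝ) ^ 1 ≤ 9 ^ m := pow_le_pow_right₀ (by norm_num) hm
  have h1 : (1 : ℝ) ^ 2 ≤ (w * r ^ m) ^ 2 := by linarith
  exact (sq_le_sq₀ (by norm_num) (by positivity)).1 h1

theorem rho_num {d : ℕ} (hd : 1 ≤ d) {ρ : ℝ} (hρ : 0 ≤ ρ) (h : ρ ^ 2 ≤ d) : ρ ≤ (d : ℝ) ^ 2 := by
  have h1 : (1 : ℝ) ≤ d := by exact_mod_cast hd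
  have h2 : (d : ℝ) ≤ ((d : ℝ) ^ 2) ^ 2 := by
    calc (d : ℝ) = (d : ℝ) ^ 1 := by ring
      _ ≤ (d : ℝ) ^ 4 := pow_le_pow_right₀ h1 (by norm_num)
      _ = _ := by ring
  exact (sq_le_sq₀ hρ (by positivity)).1 (h.trans h2)

theorem top_num {d : ℕ} (hd : 256 ≤ d) {lam : ℝ} (hlam : 1 ≤ lam) :
    2 * (d : ℝ) ≤ (d : ℝ) ^ 2 ∧ 4 * d * (2 * √d * lam) / (lam / 2) ≤ (d : ℝ) ^ 2 ∧
      4 * (d : ℝ) / (lam / 2) ≤ (d : ℝ) ^ 2 := by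
  have hdR : (256 : ℝ) ≤ d := by exact_mod_cast hd
  have hd0 : (0 : ℝ) < d := by linarith
  have hlam0 : 0 < lam := by linarith
  have hsq : √(d : ℝ) * √d = d := Real.mul_self_sqrt hd0.le
  have h16 : 16 ≤ √(d : ℝ) := by
    rw [Real.le_sqrt' (by norm_num)]
    linarith
  have h16' : 16 * √(d : ℝ) ≤ d := by
    calc 16 * √(d : ℝ) ≤ √d * √d := mul_le_mul_of_nonneg_right h16 (Real.sqrt_nonneg _)
      _ = d := hsq
  refine ⟨?_, ?_, ?_⟩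
  · rw [sq]
    exact mul_le_mul_of_nonneg_right (by linarith) hd0.le
  · rw [div_le_iff₀ (by positivity)]
    calc 4 * d * (2 * √d * lam) = (d * lam / 2) * (16 * √d) := by ring
      _ ≤ (d * lam / 2) * d := mul_le_mul_of_nonneg_left h16' (by positivity)
      _ = _ := by ring
  · rw [div_le_iff₀ (by positivity)]
    calc 4 * (d : ℝ) = d * (4 * 1) := by ring
      _ ≤ d * (d * (lam / 2)) := by
          apply mul_le_mul_of_nonneg_left _ hd0.le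
          calc (4 : ℝ) * 1 ≤ (d / 2) * lam := mul_le_mul (by linarith) hlam (by norm_num) (by positivity)
            _ = _ := by ring
      _ = _ := by ring

theorem area_num {m : ℕ} {r ρ : ℝ} (hr : r ^ 2 = 9 * m) (hρ : ρ ^ 2 = 7200 * (m : ℝ) ^ 2 + 1) :
    ((200 * m : ℕ) : ℝ) * Real.pi * (2 * r) ^ 2 + 1 < Real.pi * ρ ^ 2 := by
  rw [mul_pow, hr, hρ]
  push_cast
  have h := Real.pi_gt_three
  have e : 200 * (m : ℝ) * Real.pi * (2 ^ 2 * (9 * m)) + 1 = Real.pi * (7200 * (m : ℝ) ^ 2) + 1 := by ring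
  rw [e]
  have e2 : Real.pi * (7200 * (m : ℝ) ^ 2 + 1) = Real.pi * (7200 * (m : ℝ) ^ 2) + Real.pi := by ring
  rw [e2]
  linarith

end H73.PT
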