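import Pool.Agent.H73.PT.Def

/-!
# [H73 PT MXM] zeros in a disc

`zeros_le`: by `Finset.induction` (or directly) `u = (∏_{ζ ∈ Z} (X - C ζ)) * v` (`Polynomial.dvd_iff_isRoot`, distinct zeros: `Finset.prod_dvd_of_coprime` or
`Multiset.prod_X_sub_C_dvd_iff_le_roots`; `u = 0` is trivial: then `u.eval z = 0 ≤ M (1/2)^card` needs `0 ≤ M`: from `hM 0`). Put `R = 4 r`, `W = v ∏ (R² - conj ζ z)/R`. For `‖z‖ = R`:
`‖R² - conj ζ z‖ = R ‖z - ζ‖`, so `‖W z‖ = ‖u z‖ ≤ M`; by the maximum principle (`Complex.norm_le_of_forall_mem_frontier_norm_le` on the ball) `‖W z‖ ≤ M` for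
`‖z‖ ≤ R`; and for `‖z‖, ‖ζ‖ ≤ r`: `‖z - ζ‖ ≤ 2 r ≤ (1/2) (R² - r²)/R ≤ (1/2) ‖R² - conj ζ z‖/R` (`(16 - 1)/(4 * 2) ≥ 1.8`, hmm: `(1/2)(15/4) r = 1.875 r`; use instead
`‖z - ζ‖² R² ≤ (1/4) ‖R² - conj ζ z‖²`: `‖R² - conj ζ z‖² - R² ‖z - ζ‖² = (R² - ‖z‖²)(R² - ‖ζ‖²) ≥ (15 r²)² = 225 r⁴` and `R² ‖z - ζ‖² ≤ 64 r⁴`, so
`‖R² - conj ζ z‖² ≥ R² ‖z - ζ‖² + 225 r⁴ ≥ (1 + 225/64) R² ‖z - ζ‖² ≥ 4 R² ‖z - ζ‖²`).
`coeff_le`: Cauchy estimate: `u.coeff j = iteratedDeriv j u 0 / j!`, `Complex.norm_iteratedDeriv_le_of_forall_mem_sphere_norm_le`; or by the mean value of `u z / z^j`.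
-/

set_option autoImplicit false

namespace H73.PT

open Polynomial

private theorem mxm_id (R : ℝ) (z ζ : ℂ) :
    Complex.normSq ((R : ℂ) ^ 2 - (starRingEnd ℂ) ζ * z) - R ^ 2 * Complex.normSq (z - ζ) =
      (R ^ 2 - Complex.normSq z) * (R ^ 2 - Complex.normSq ζ) := by
  simp only [Complex.normSq_apply, Complex.sub_re, Complex.sub_im, Complex.mul_re, Complex.mul_im,
    Complex.conj_re, Complex.conj_im, ← Complex.ofReal_pow, Complex.ofReal_re, Complex.ofReal_im]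
  ring

private theorem mxm_norm {R : ℝ} (hR : 0 < R) (z ζ : ℂ) :
    ‖(R : ℂ) - (starRingEnd ℂ) ζ / R * z‖ ^ 2 =
      ‖z - ζ‖ ^ 2 + (R ^ 2 - ‖z‖ ^ 2) * (R ^ 2 - ‖ζ‖ ^ 2) / R ^ 2 := by
  have h0 : (R : ℂ) ≠ 0 := by exact_mod_cast hR.ne'
  have h1 : (R : ℂ) - (starRingEnd ℂ) ζ / R * z = ((R : ℂ) ^ 2 - (starRingEnd ℂ) ζ * z) / R := by
    field_simp
  rw [h1, norm_div, div_pow, Complex.norm_real, Real.norm_eq_abs, sq_abs]
  have h2 := mxm_id R z ζ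
  rw [Complex.normSq_eq_norm_sq, Complex.normSq_eq_norm_sq, Complex.normSq_eq_norm_sq,
    Complex.normSq_eq_norm_sq] at h2
  have h3 : ‖(R : ℂ) ^ 2 - (starRingEnd ℂ) ζ * z‖ ^ 2 =
      R ^ 2 * ‖z - ζ‖ ^ 2 + (R ^ 2 - ‖z‖ ^ 2) * (R ^ 2 - ‖ζ‖ ^ 2) := by linarith
  rw [h3]
  field_simp

theorem zeros_le {u : ℂ[X]} {r M : ℝ} (hr : 0 < r) (hM : ∀ z : ℂ, ‖z‖ ≤ 4 * r → ‖u.eval z‖ ≤ M)
    (Z : Finset ℂ) (hZ : ∀ ζ ∈ Z, ‖ζ‖ ≤ r ∧ u.eval ζ = 0) {z : ℂ} (hz : ‖z‖ ≤ r) :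
    ‖u.eval z‖ ≤ M * (1 / 2) ^ Z.card := by
  obtain ⟨v, hv⟩ : (∏ ζ ∈ Z, (X - C ζ)) ∣ u := by
    refine Finset.prod_dvd_of_coprime ?_ fun ζ hζ => dvd_iff_isRoot.2 (hZ ζ hζ).2
    intro a _ b _ hab
    exact pairwise_coprime_X_sub_C (s := fun x : ℂ => x) (fun _ _ h => h) hab
  have hR : (0 : ℝ) < 4 * r := by linarith
  have hu : ∀ y : ℂ, u.eval y = (∏ ζ ∈ Z, (y - ζ)) * v.eval y := by
    intro y
    rw [hv, eval_mul, eval_prod]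
    simp
  set W : ℂ[X] := v * ∏ ζ ∈ Z, (C ((4 * r : ℝ) : ℂ) - C ((starRingEnd ℂ) ζ / ((4 * r : ℝ) : ℂ)) * X)
    with hW
  have hWe : ∀ y : ℂ, W.eval y = v.eval y *
      ∏ ζ ∈ Z, (((4 * r : ℝ) : ℂ) - (starRingEnd ℂ) ζ / ((4 * r : ℝ) : ℂ) * y) := by
    intro y
    rw [hW, eval_mul, eval_prod]
    simp
  have hb : ∀ y : ℂ, ‖y‖ ≤ 4 * r → ‖W.eval y‖ ≤ M := by
    intro y hy
    refine Complex.norm_le_of_forall_mem_frontier_norm_le (U := Metric.ball (0 : ℂ) (4 * r))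
      (f := fun y => W.eval y) Metric.isBounded_ball W.differentiable.diffContOnCl ?_ ?_
    · intro x hx
      rw [frontier_ball (0 : ℂ) hR.ne', mem_sphere_zero_iff_norm] at hx
      have h1 : ‖W.eval x‖ = ‖u.eval x‖ := by
        rw [hWe, hu, norm_mul, norm_mul, mul_comm, norm_prod, norm_prod]
        congr 1
        refine Finset.prod_congr rfl fun ζ _ => ?_
        have h2 := mxm_norm hR x ζ
        rw [hx, sub_self, zero_mul, zero_div, add_zero] at h2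
        exact (pow_left_inj₀ (norm_nonneg _) (norm_nonneg _) two_ne_zero).1 h2
      show ‖W.eval x‖ ≤ M
      rw [h1]
      exact hM x hx.le
    · rw [closure_ball (0 : ℂ) hR.ne', mem_closedBall_zero_iff]
      exact hy
  have h3 : ‖u.eval z‖ ≤ (1 / 2) ^ Z.card * ‖W.eval z‖ := by
    rw [hu, hWe, norm_mul, norm_mul, norm_prod, norm_prod]
    have h4 : ∏ ζ ∈ Z, ‖z - ζ‖ ≤ ∏ ζ ∈ Z, (1 / 2 *
        ‖((4 * r : ℝ) : ℂ) - (starRingEnd ℂ) ζ / ((4 * r : ℝ) : ℂ) * z‖) := by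
      refine Finset.prod_le_prod (fun ζ _ => norm_nonneg _) fun ζ hζ => ?_
      have h5 := mxm_norm hR z ζ
      have h6 := (hZ ζ hζ).1
      have h7 : ‖z - ζ‖ ≤ 2 * r := (norm_sub_le z ζ).trans (by linarith)
      have h8 : 3 * (2 * r) ^ 2 ≤ ((4 * r) ^ 2 - ‖z‖ ^ 2) * ((4 * r) ^ 2 - ‖ζ‖ ^ 2) / (4 * r) ^ 2 := by
        rw [le_div_iff₀ (by positivity)]
        have h9 : ‖z‖ ^ 2 ≤ r ^ 2 := by gcongr
        have h10 : ‖ζ‖ ^ 2 ≤ r ^ 2 := by gcongr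
        have h11 : 15 * r ^ 2 ≤ (4 * r) ^ 2 - ‖z‖ ^ 2 := by nlinarith
        have h12 : 15 * r ^ 2 ≤ (4 * r) ^ 2 - ‖ζ‖ ^ 2 := by nlinarith
        have h13 : (15 * r ^ 2) * (15 * r ^ 2) ≤
            ((4 * r) ^ 2 - ‖z‖ ^ 2) * ((4 * r) ^ 2 - ‖ζ‖ ^ 2) :=
          mul_le_mul h11 h12 (by positivity) (le_trans (by positivity) h11)
        nlinarith [sq_nonneg (r ^ 2)]
      have h14 : ‖z - ζ‖ ^ 2 ≤ (2 * r) ^ 2 := by gcongr
      have h15 : (2 * ‖z - ζ‖) ^ 2 ≤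
          ‖((4 * r : ℝ) : ℂ) - (starRingEnd ℂ) ζ / ((4 * r : ℝ) : ℂ) * z‖ ^ 2 := by
        rw [h5]
        nlinarith
      have h16 := (pow_le_pow_iff_left₀ (by positivity) (norm_nonneg _) two_ne_zero).1 h15
      linarith
    rw [Finset.prod_mul_distrib, Finset.prod_const] at h4
    calc (∏ ζ ∈ Z, ‖z - ζ‖) * ‖v.eval z‖
        ≤ ((1 / 2) ^ Z.card * ∏ ζ ∈ Z,
          ‖((4 * r : ℝ) : ℂ) - (starRingEnd ℂ) ζ / ((4 * r : ℝ) : ℂ) * z‖) * ‖v.eval z‖ :=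
          mul_le_mul_of_nonneg_right h4 (norm_nonneg _)
      _ = _ := by ring
  calc ‖u.eval z‖ ≤ (1 / 2) ^ Z.card * ‖W.eval z‖ := h3
    _ ≤ (1 / 2) ^ Z.card * M := by
        refine mul_le_mul_of_nonneg_left (hb z (by linarith)) (by positivity)
    _ = M * (1 / 2) ^ Z.card := mul_comm _ _

private theorem mxm_iter (j : ℕ) : ∀ u : ℂ[X],
    iteratedDeriv j (fun z => u.eval z) = fun z => (derivative^[j] u).eval z := by
  induction j with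
  | zero => intro u; simp
  | succ j ih =>
    intro u
    have h1 : deriv (fun z => u.eval z) = fun z => (derivative u).eval z := by
      funext z
      exact u.deriv
    rw [iteratedDeriv_succ', h1, ih, Function.iterate_succ_apply]

theorem coeff_le {u : ℂ[X]} {r M : ℝ} (hr : 0 < r) (hM : ∀ z : ℂ, ‖z‖ ≤ r → ‖u.eval z‖ ≤ M) (j : ℕ) :
    ‖u.coeff j‖ * r ^ j ≤ M := by
  have h1 := Complex.norm_iteratedDeriv_le_of_forall_mem_sphere_norm_le (c := 0) (R := r) (C := M)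
    (f := fun z => u.eval z) j hr u.differentiable.diffContOnCl
    (fun z hz => hM z (mem_sphere_zero_iff_norm.1 hz).le)
  rw [mxm_iter] at h1
  have h2 : (derivative^[j] u).eval 0 = (j.factorial : ℂ) * u.coeff j := by
    rw [← coeff_zero_eq_eval_zero, coeff_iterate_derivative]
    simp [Nat.descFactorial_self]
  have h3 : ‖(derivative^[j] u).eval 0‖ ≤ j.factorial * M / r ^ j := h1
  rw [h2, norm_mul, Complex.norm_natCast, mul_div_assoc] at h3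
  have h4 : (0 : ℝ) < j.factorial := by exact_mod_cast j.factorial_pos
  have h5 := le_of_mul_le_mul_left h3 h4
  rwa [le_div_iff₀ (by positivity)] at h5

end H73.PT
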