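import Pool.Agent.H73.PT.Est
import Pool.Agent.H73.PT.Mxm

/-!
# [H73 PT CNT] the number of critical points in a disc

`u = derivative T`: `‖u z‖ ≤ K exp((4 r + 1)²/2)` for `‖z‖ ≤ 4 r` (`der_le`, `√(Fk) ≤ K`), `zeros_le`, then `coeff_le` with `j = m - 1`:
`u.coeff (m-1) = m * T.coeff m` (`coeff_derivative`).
-/

set_option autoImplicit false

namespace H73.PT

open Polynomial

theorem count {d m : ℕ} (hd : 1 ≤ d) (hm : 1 ≤ m) {T : ℂ[X]} (hT : T.natDegree ≤ d) {K κ r : ℝ} (hK : 0 ≤ K)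
    (hF : Fk d T ≤ K ^ 2) (hκ : κ ≤ ‖T.coeff m‖) (hr : 0 < r)
    (Z : Finset ℂ) (hZ : ∀ x ∈ Z, ‖x‖ ≤ r ∧ T.derivative.eval x = 0) :
    (2 : ℝ) ^ Z.card * (m * κ * r ^ (m - 1)) ≤ K * Real.exp ((4 * r + 1) ^ 2 / 2) := by
  obtain ⟨M, hMd⟩ : ∃ M : ℝ, M = K * Real.exp ((4 * r + 1) ^ 2 / 2) := ⟨_, rfl⟩
  have hM : ∀ z : ℂ, ‖z‖ ≤ 4 * r → ‖T.derivative.eval z‖ ≤ M := by
    intro z hz
    refine (der_le hd hT z).trans ?_
    rw [hMd]
    have h1 : √(Fk d T) ≤ K := by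
      rw [Real.sqrt_le_left hK]
      exact hF
    have h2 : Real.exp ((‖z‖ + 1) ^ 2 / 2) ≤ Real.exp ((4 * r + 1) ^ 2 / 2) := by
      apply Real.exp_le_exp.mpr
      have h3 : (‖z‖ + 1) ^ 2 ≤ (4 * r + 1) ^ 2 :=
        pow_le_pow_left₀ (by positivity) (by linarith) 2
      linarith
    exact mul_le_mul h1 h2 (Real.exp_pos _).le hK
  have h1 : ∀ z : ℂ, ‖z‖ ≤ r → ‖T.derivative.eval z‖ ≤ M * (1 / 2) ^ Z.card := fun z hz =>
    zeros_le hr hM Z hZ hz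
  have h2 := coeff_le hr h1 (m - 1)
  have h3 : ‖T.derivative.coeff (m - 1)‖ = m * ‖T.coeff m‖ := by
    rw [coeff_derivative, Nat.sub_add_cancel hm, norm_mul]
    have h4 : ((m - 1 : ℕ) : ℂ) + 1 = (m : ℂ) := by
      have : m - 1 + 1 = m := Nat.sub_add_cancel hm
      exact_mod_cast this
    rw [h4, Complex.norm_natCast, mul_comm]
  rw [h3] at h2
  have h5 : m * κ * r ^ (m - 1) ≤ M * (1 / 2) ^ Z.card := by
    refine le_trans ?_ h2
    have : (m : ℝ) * κ ≤ m * ‖T.coeff m‖ := mul_le_mul_of_nonneg_left hκ (Nat.cast_nonneg m)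
    exact mul_le_mul_of_nonneg_right this (by positivity)
  calc (2 : ℝ) ^ Z.card * (m * κ * r ^ (m - 1)) ≤ 2 ^ Z.card * (M * (1 / 2) ^ Z.card) :=
        mul_le_mul_of_nonneg_left h5 (by positivity)
    _ = M * ((2 : ℝ) ^ Z.card * (1 / 2) ^ Z.card) := by ring
    _ = M := by rw [← mul_pow]; norm_num
    _ = _ := hMd

end H73.PT
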