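import Mathlib

/-!
# [H73 PT NUM] the parameters for large `d`

`m = ⌈5 log d⌉₊`, so `5 log d ≤ m ≤ 5 log d + 1 ≤ 6 log d` for `d ≥ 3`, `exp m ≥ d^5`, `9^m ≥ exp (2 m) ≥ d^10` (`exp 2 ≤ 9`: `Real.exp_one_lt_d9`).
All other claims are powers of `log d` against powers of `d` (`Real.isLittleO_log_id_atTop`, `isLittleO_log_rpow_atTop`, `isLittleO_pow_log_id_atTop`), `m ≤ 6 log d`:
`2 m² ≤ d`; `512 d^5 ≤ d^10 ≤ 9^m`; the same for the second (`4^m ≥ 1`); `7200 m² + 1 ≤ 300000 (log d)² ≤ d`; `24 √(d m) exp (85 m) ≤ exp (138 m) ≤ 2^(200 m)` (`exp m ≥ d^5`,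
`138 ≤ 200 log 2`: `Real.log_two_gt_d9`).
-/

set_option autoImplicit false

namespace H73.PT

theorem num : ∃ d0 : ℕ, 300 ≤ d0 ∧ ∀ d : ℕ, d0 ≤ d → ∃ m : ℕ, 2 ≤ m ∧ 2 * m ^ 2 ≤ d ∧
    512 * (d : ℝ) ^ 5 ≤ 9 ^ m ∧ 10 ^ 4 * (d : ℝ) ^ 9 ≤ 9 ^ m * 4 ^ m ∧
    7200 * (m : ℝ) ^ 2 + 1 ≤ 300000 * Real.log d ^ 2 ∧ 28 + 4 * (7200 * (m : ℝ) ^ 2 + 1) ≤ 2 * d ∧
    24 * √(d * m) * Real.exp (85 * m) ≤ 2 ^ (200 * m) := by
  have e1 : ∀ᶠ x : ℝ in Filter.atTop, Real.log x ^ 2 ≤ (1 / 10 ^ 7) * x := by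
    have h := (Real.isLittleO_pow_log_id_atTop (n := 2)).def (show (0 : ℝ) < 1 / 10 ^ 7 by norm_num)
    filter_upwards [h, Filter.eventually_ge_atTop (0 : ℝ)] with x hx hx0
    rw [Real.norm_of_nonneg (by positivity), id, Real.norm_of_nonneg hx0] at hx
    exact hx
  have e2 : ∀ᶠ x : ℝ in Filter.atTop, (10 : ℝ) ≤ Real.log x :=
    Real.tendsto_log_atTop.eventually_ge_atTop 10
  have e3 := (tendsto_natCast_atTop_atTop (R := ℝ)).eventually (e1.and e2)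
  obtain ⟨N, hN⟩ := Filter.eventually_atTop.1 e3
  refine ⟨max N 10000, (by norm_num : (300 : ℕ) ≤ 10000).trans (le_max_right _ _), fun d hd => ?_⟩
  obtain ⟨h1, h2⟩ := hN d ((le_max_left _ _).trans hd)
  have hd4 : 10000 ≤ d := (le_max_right _ _).trans hd
  have hdR : (10000 : ℝ) ≤ d := by exact_mod_cast hd4
  have hd0 : (0 : ℝ) < d := by linarith
  obtain ⟨L, hL⟩ : ∃ L : ℝ, L = Real.log d := ⟨_, rfl⟩
  rw [← hL] at h1 h2 ⊢
  have hexpL : Real.exp L = d := by rw [hL, Real.exp_log hd0]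
  obtain ⟨m, hm⟩ : ∃ m : ℕ, m = ⌈5 * L⌉₊ := ⟨_, rfl⟩
  have m1 : 5 * L ≤ m := by rw [hm]; exact Nat.le_ceil _
  have m2 : (m : ℝ) ≤ 6 * L := by
    have := Nat.ceil_lt_add_one (show (0 : ℝ) ≤ 5 * L by linarith)
    rw [← hm] at this
    linarith
  have m0 : (0 : ℝ) ≤ m := Nat.cast_nonneg m
  have msq : (m : ℝ) ^ 2 ≤ 36 * L ^ 2 := by
    have : (m : ℝ) ^ 2 ≤ (6 * L) ^ 2 := by gcongr
    nlinarith
  have hexpm : (d : ℝ) ^ 5 ≤ Real.exp m := by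
    calc (d : ℝ) ^ 5 = Real.exp (5 * L) := by
          rw [← hexpL, ← Real.exp_nat_mul]
          norm_num
      _ ≤ _ := Real.exp_le_exp.2 m1
  have hnine : (d : ℝ) ^ 10 ≤ 9 ^ m := by
    have h3 : Real.exp 1 ^ 2 ≤ 9 := by
      have := Real.exp_one_lt_d9
      have h0 := Real.exp_pos 1
      nlinarith
    calc (d : ℝ) ^ 10 = ((d : ℝ) ^ 5) ^ 2 := by ring
      _ ≤ (Real.exp m) ^ 2 := by gcongr
      _ = (Real.exp 1 ^ 2) ^ m := by
          rw [← Real.exp_nat_mul, ← Real.exp_nat_mul, ← Real.exp_nat_mul]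
          congr 1
          push_cast
          ring
      _ ≤ 9 ^ m := by gcongr
  have hmd : (m : ℝ) ≤ d := by nlinarith
  refine ⟨m, ?_, ?_, ?_, ?_, ?_, ?_, ?_⟩
  · have : (2 : ℝ) ≤ m := by linarith
    exact_mod_cast this
  · have : 2 * (m : ℝ) ^ 2 ≤ d := by nlinarith
    exact_mod_cast this
  · refine le_trans ?_ hnine
    have h3 : (512 : ℝ) ≤ (d : ℝ) ^ 5 := by
      calc (512 : ℝ) ≤ 10000 ^ 5 := by norm_num
        _ ≤ _ := by gcongr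
    calc 512 * (d : ℝ) ^ 5 ≤ (d : ℝ) ^ 5 * (d : ℝ) ^ 5 := by gcongr
      _ = (d : ℝ) ^ 10 := by ring
  · have h3 : (1 : ℝ) ≤ 4 ^ m := one_le_pow₀ (by norm_num)
    calc 10 ^ 4 * (d : ℝ) ^ 9 ≤ d * (d : ℝ) ^ 9 := by
          gcongr
          linarith
      _ = (d : ℝ) ^ 10 * 1 := by ring
      _ ≤ 9 ^ m * 4 ^ m := by gcongr
  · nlinarith
  · nlinarith
  · have h3 : √(d * m) ≤ d := by
      rw [Real.sqrt_le_left hd0.le]
      nlinarith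
    have h4 : 24 * √(d * m) ≤ Real.exp m := by
      refine le_trans ?_ hexpm
      have h5 : (24 : ℝ) ≤ (d : ℝ) ^ 4 := by
        calc (24 : ℝ) ≤ 10000 ^ 4 := by norm_num
          _ ≤ _ := by gcongr
      calc 24 * √(d * m) ≤ (d : ℝ) ^ 4 * d := by gcongr
        _ = (d : ℝ) ^ 5 := by ring
    calc 24 * √(d * m) * Real.exp (85 * m) ≤ Real.exp m * Real.exp (85 * m) := by gcongr
      _ = Real.exp (86 * m) := by rw [← Real.exp_add]; congr 1; ring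
      _ ≤ Real.exp (Real.log 2 * ((200 * m : ℕ) : ℝ)) := by
          apply Real.exp_le_exp.2
          push_cast
          have := Real.log_two_gt_d9
          nlinarith
      _ = 2 ^ (200 * m) := by
          rw [← Real.rpow_natCast, Real.rpow_def_of_pos (by norm_num)]

end H73.PT
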