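import Pool.Agent.H73.PT.Est

/-!
# [H73 PT PRE] large coefficients at `1`, `m`, `d`

For `k ∈ {1, m, d}` (three different numbers) let `e_k = 0` if `λ/2 w_k ≤ ‖T.coeff k‖` and `e_k = λ w_k` otherwise (then `‖t_k + λ w_k‖ ≥ λ w_k - λ w_k/2`).
`T0 = T + ∑ C e_k * X^k`; `Fk (T0 - T) = ∑ ‖e_k‖²/w_k² ≤ 3 λ²`. (Here `lam = λ`.)
-/

/-!
# [H73 PT PRE] large coefficients at `1`, `m`, `d`

For `k ∈ {1, m, d}` (three different numbers) let `e_k = 0` if `λ/2 w_k ≤ ‖T.coeff k‖` and `e_k = λ w_k` otherwise (then `‖t_k + λ w_k‖ ≥ λ w_k - λ w_k/2`).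
`T0 = T + ∑ C e_k * X^k`; `Fk (T0 - T) = ∑ ‖e_k‖²/w_k² ≤ 3 λ²`. (Here `lam = λ`.)
-/

set_option autoImplicit false

namespace H73.PT

open Polynomial

open Classical in
/-- the change of the coefficient `k` -/
private noncomputable def pe (d m : ℕ) (T : ℂ[X]) (lam : ℝ) (k : ℕ) : ℂ :=
  if k ∈ ({1, m, d} : Finset ℕ) ∧ ¬ (lam / 2 * wt d k ≤ ‖T.coeff k‖) then ((lam * wt d k : ℝ) : ℂ)
  else 0

private theorem pe_le (d m : ℕ) (T : ℂ[X]) {lam : ℝ} (_hlam : 1 ≤ lam) (k : ℕ) :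
    ‖pe d m T lam k‖ ^ 2 / wt d k ^ 2 ≤ lam ^ 2 := by
  unfold pe
  split_ifs with h
  · rw [Complex.norm_real, Real.norm_eq_abs, sq_abs, mul_pow]
    rcases eq_or_ne (wt d k) 0 with h0 | h0
    · rw [h0]
      simp
      positivity
    · rw [mul_div_cancel_right₀ _ (pow_ne_zero 2 h0)]
  · rw [norm_zero, zero_pow two_ne_zero, zero_div]
    positivity

private theorem pe_coeff (d m : ℕ) (T : ℂ[X]) (lam : ℝ) (k : ℕ) :
    (∑ j ∈ ({1, m, d} : Finset ℕ), C (pe d m T lam j) * X ^ j).coeff k = pe d m T lam k := by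
  rw [finsetSum_coeff]
  simp only [coeff_C_mul, coeff_X_pow, mul_ite, mul_one, mul_zero]
  rw [Finset.sum_ite_eq]
  split_ifs with h
  · rfl
  · unfold pe
    rw [if_neg (fun h' => h h'.1)]

theorem pre {d m : ℕ} (hm : 2 ≤ m) (hmd : m < d) {T : ℂ[X]} (hT : T.natDegree ≤ d) {lam : ℝ} (hlam : 1 ≤ lam) :
    ∃ T0 : ℂ[X], T0.natDegree ≤ d ∧ Fk d (T0 - T) ≤ 3 * lam ^ 2 ∧
      ∀ k : ℕ, k = 1 ∨ k = m ∨ k = d → lam / 2 * wt d k ≤ ‖T0.coeff k‖ := by
  classical
  refine ⟨T + ∑ j ∈ ({1, m, d} : Finset ℕ), C (pe d m T lam j) * X ^ j, ?_, ?_, ?_⟩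
  · refine natDegree_add_le_of_degree_le hT (natDegree_sum_le_of_forall_le _ _ fun j hj => ?_)
    refine (natDegree_C_mul_X_pow_le _ _).trans ?_
    simp only [Finset.mem_insert, Finset.mem_singleton] at hj
    omega
  · rw [add_sub_cancel_left]
    unfold Fk
    simp only [pe_coeff]
    have h1 : ∑ k ∈ Finset.range (d + 1), ‖pe d m T lam k‖ ^ 2 / wt d k ^ 2 =
        ∑ k ∈ ({1, m, d} : Finset ℕ), ‖pe d m T lam k‖ ^ 2 / wt d k ^ 2 := by
      symm
      apply Finset.sum_subset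
      · intro j hj
        simp only [Finset.mem_insert, Finset.mem_singleton] at hj
        rw [Finset.mem_range]
        omega
      · intro j _ hj
        unfold pe
        rw [if_neg (fun h' => hj h'.1), norm_zero, zero_pow two_ne_zero, zero_div]
    rw [h1]
    refine (Finset.sum_le_card_nsmul _ _ (lam ^ 2) fun k _ => pe_le d m T hlam k).trans ?_
    rw [nsmul_eq_mul]
    have h2 : (({1, m, d} : Finset ℕ).card : ℝ) ≤ 3 := by exact_mod_cast Finset.card_le_three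
    exact mul_le_mul_of_nonneg_right h2 (by positivity)
  · intro k hk
    rw [coeff_add, pe_coeff]
    have hw : 0 ≤ wt d k := Real.sqrt_nonneg _
    have hk' : k ∈ ({1, m, d} : Finset ℕ) := by
      simp only [Finset.mem_insert, Finset.mem_singleton]
      exact hk
    by_cases h : lam / 2 * wt d k ≤ ‖T.coeff k‖
    · unfold pe
      rw [if_neg (fun h' => h'.2 h), add_zero]
      exact h
    · unfold pe
      rw [if_pos ⟨hk', h⟩]
      push Not at h
      have h3 : ‖((lam * wt d k : ℝ) : ℂ)‖ = lam * wt d k := by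
        rw [Complex.norm_real, Real.norm_eq_abs, abs_of_nonneg (by positivity)]
      have h4 : ‖((lam * wt d k : ℝ) : ℂ)‖ ≤
          ‖T.coeff k + ((lam * wt d k : ℝ) : ℂ)‖ + ‖T.coeff k‖ := by
        have h5 := norm_sub_le (T.coeff k + ((lam * wt d k : ℝ) : ℂ)) (T.coeff k)
        rwa [add_sub_cancel_left] at h5
      rw [h3] at h4
      linarith

end H73.PT
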