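import Pool.Agent.H73.PT.Est

/-!
# [H73 PT TOP] the escape region

`esc_of`: induction: `2^j ‖f^[k] x‖ ≤ ‖f^[k+j] x‖` (stay in the region), so the norms tend to infinity (shift by `k`: `tendsto_add_atTop_iff_nat`).
`top_le`: `‖s‖ ≥ H`. `‖T s‖ ≥ ‖t_d‖ ‖s‖^d - ∑_{k<d} K w_k ‖s‖^k` (`Fk_mono`, `√(Fk) ≤ K`), by `wt_ratio` `w_k ‖s‖^k ≤ w_d ‖s‖^d (d/‖s‖)^(d-k)`,
`∑_{k<d} (d/‖s‖)^(d-k) ≤ 2 d/‖s‖` (geometric, `d/‖s‖ ≤ 1/2`), so `‖T s‖ ≥ w_d ‖s‖^d (μ - 2 K d/‖s‖) ≥ (μ/2) w_d ‖s‖^d` as `4 d K/μ ≤ ‖s‖`.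
`w_d = d^(-d/2)`: `w_d ‖s‖^d = (‖s‖/√d)^d ≥ (‖s‖/√d)² = ‖s‖²/d` (`√d ≤ ‖s‖`, `d ≥ 2`), and `(μ/2) ‖s‖²/d ≥ 2 ‖s‖` as `4 d/μ ≤ ‖s‖`.
-/

set_option autoImplicit false

namespace H73.PT

open Polynomial Finset Filter

theorem esc_of {T : ℂ[X]} {H : ℝ} (hH : 0 < H) (h : ∀ s : ℂ, H ≤ ‖s‖ → 2 * ‖s‖ ≤ ‖T.eval s‖) {x : ℂ}
    {k : ℕ} (hx : H ≤ ‖(fun z : ℂ => T.eval z)^[k] x‖) : Esc T x := by
  have key : ∀ j : ℕ, H * 2 ^ j ≤ ‖(fun z : ℂ => T.eval z)^[j + k] x‖ := by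
    intro j
    induction j with
    | zero => simpa using hx
    | succ j ih =>
      have h1 : H ≤ ‖(fun z : ℂ => T.eval z)^[j + k] x‖ := by
        refine le_trans ?_ ih
        exact le_mul_of_one_le_right hH.le (one_le_pow₀ (by norm_num))
      have h2 := h _ h1
      have h3 : j + 1 + k = (j + k) + 1 := by omega
      rw [h3, Function.iterate_succ_apply']
      calc H * 2 ^ (j + 1) = 2 * (H * 2 ^ j) := by ring
        _ ≤ 2 * ‖(fun z : ℂ => T.eval z)^[j + k] x‖ := by gcongr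
        _ ≤ _ := h2
  unfold Esc
  rw [← tendsto_add_atTop_iff_nat k]
  refine tendsto_atTop_mono key ?_
  exact (tendsto_pow_atTop_atTop_of_one_lt (by norm_num : (1 : ℝ) < 2)).const_mul_atTop hH

theorem top_geom {q : ℝ} (h0 : 0 ≤ q) (h1 : q ≤ 1 / 2) (d : ℕ) :
    ∑ k ∈ Finset.range d, q ^ (d - k) ≤ 2 * q := by
  induction d with
  | zero => simpa using h0
  | succ d ih =>
    rw [Finset.sum_range_succ]
    have h2 : ∑ k ∈ Finset.range d, q ^ (d + 1 - k) = q * ∑ k ∈ Finset.range d, q ^ (d - k) := by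
      rw [Finset.mul_sum]
      refine Finset.sum_congr rfl fun k hk => ?_
      have h3 : d + 1 - k = (d - k) + 1 := by
        have := Finset.mem_range.1 hk
        omega
      rw [h3, pow_succ]
      ring
    have h4 : d + 1 - d = 1 := by omega
    rw [h2, h4, pow_one]
    nlinarith

theorem top_wd {d : ℕ} (hd : 2 ≤ d) {x : ℝ} (hx : (d : ℝ) ≤ x) : x ^ 2 / d ≤ wt d d * x ^ d := by
  have hd0 : (2 : ℝ) ≤ d := by exact_mod_cast hd
  have hx0 : 0 < x := by linarith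
  have h1 : 1 ≤ x ^ 2 / d := by
    rw [le_div_iff₀ (by linarith)]
    nlinarith
  have h2 : (x ^ 2 / d) ^ 2 ≤ (x ^ 2 / d) ^ d := pow_le_pow_right₀ h1 hd
  have h3 : wt d d * x ^ d = Real.sqrt ((x ^ 2 / d) ^ d) := by
    have h4 : wt d d = Real.sqrt (1 / (d : ℝ) ^ d) := by
      unfold wt
      rw [Nat.choose_self, Nat.cast_one]
    have h5 : x ^ d = Real.sqrt ((x ^ 2) ^ d) := by
      rw [← pow_mul, mul_comm 2 d, pow_mul, Real.sqrt_sq (by positivity)]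
    rw [h4, h5, ← Real.sqrt_mul (by positivity), div_pow]
    congr 1
    ring
  rw [h3]
  calc x ^ 2 / d = Real.sqrt ((x ^ 2 / d) ^ 2) := (Real.sqrt_sq (by linarith)).symm
    _ ≤ _ := Real.sqrt_le_sqrt h2

theorem top_le {d : ℕ} (hd : 2 ≤ d) {T : ℂ[X]} (hT : T.natDegree ≤ d) {K μ H : ℝ} (hK : 0 ≤ K) (hμ : 0 < μ)
    (hF : Fk d T ≤ K ^ 2) (hc : μ * wt d d ≤ ‖T.coeff d‖) (h1 : 2 * d ≤ H) (h2 : 4 * d * K / μ ≤ H)
    (h3 : 4 * d / μ ≤ H) (s : ℂ) (hs : H ≤ ‖s‖) : 2 * ‖s‖ ≤ ‖T.eval s‖ := by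
  have hd1 : 1 ≤ d := by omega
  have hd0 : (2 : ℝ) ≤ d := by exact_mod_cast hd
  have hs2 : 2 * (d : ℝ) ≤ ‖s‖ := h1.trans hs
  have hs0 : 0 < ‖s‖ := by linarith
  have hsq : √(Fk d T) ≤ K := by
    calc √(Fk d T) ≤ √(K ^ 2) := Real.sqrt_le_sqrt hF
      _ = K := Real.sqrt_sq hK
  have hwd : 0 < wt d d := wt_pos hd1 le_rfl
  set q : ℝ := d / ‖s‖ with hq
  have hq0 : 0 ≤ q := by positivity
  have hq1 : q ≤ 1 / 2 := by
    rw [hq, div_le_iff₀ hs0]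
    linarith
  -- the lower terms
  have hlow : ‖∑ k ∈ Finset.range d, T.coeff k * s ^ k‖ ≤ K * (wt d d * ‖s‖ ^ d) * (2 * q) := by
    have h4 : ∀ k ∈ Finset.range d, ‖T.coeff k * s ^ k‖ ≤ K * (wt d d * ‖s‖ ^ d) * q ^ (d - k) := by
      intro k hk
      have hk' := (Finset.mem_range.1 hk).le
      have h5 : ‖T.coeff k‖ ≤ K * (wt d d * (d : ℝ) ^ (d - k)) := by
        calc ‖T.coeff k‖ ≤ √(Fk d T) * wt d k := Fk_mono hd1 hk' T
          _ ≤ K * wt d k := by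
            have : 0 ≤ wt d k := (wt_pos hd1 hk').le
            gcongr
          _ ≤ K * (wt d d * (d : ℝ) ^ (d - k)) := by
            have := wt_ratio hd1 hk'
            gcongr
      have h6 : ‖s‖ ^ d = ‖s‖ ^ k * ‖s‖ ^ (d - k) := by
        rw [← pow_add, Nat.add_sub_cancel' hk']
      have h7 : ‖s‖ ^ (d - k) * q ^ (d - k) = (d : ℝ) ^ (d - k) := by
        rw [← mul_pow, hq, mul_div_cancel₀ _ hs0.ne']
      rw [norm_mul, norm_pow]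
      calc ‖T.coeff k‖ * ‖s‖ ^ k ≤ K * (wt d d * (d : ℝ) ^ (d - k)) * ‖s‖ ^ k := by gcongr
        _ = K * (wt d d * ‖s‖ ^ d) * q ^ (d - k) := by
          rw [h6, ← h7]; ring
    calc ‖∑ k ∈ Finset.range d, T.coeff k * s ^ k‖
        ≤ ∑ k ∈ Finset.range d, ‖T.coeff k * s ^ k‖ := norm_sum_le _ _
      _ ≤ ∑ k ∈ Finset.range d, K * (wt d d * ‖s‖ ^ d) * q ^ (d - k) := Finset.sum_le_sum h4
      _ = K * (wt d d * ‖s‖ ^ d) * ∑ k ∈ Finset.range d, q ^ (d - k) := by rw [Finset.mul_sum]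
      _ ≤ K * (wt d d * ‖s‖ ^ d) * (2 * q) := by
        have := top_geom hq0 hq1 d
        gcongr
  have hev : T.eval s = ∑ k ∈ Finset.range d, T.coeff k * s ^ k + T.coeff d * s ^ d := by
    rw [eval_eq_sum_range' (by omega : T.natDegree < d + 1), Finset.sum_range_succ]
  have htop : μ * (wt d d * ‖s‖ ^ d) ≤ ‖T.coeff d * s ^ d‖ := by
    rw [norm_mul, norm_pow]
    calc μ * (wt d d * ‖s‖ ^ d) = (μ * wt d d) * ‖s‖ ^ d := by ring
      _ ≤ ‖T.coeff d‖ * ‖s‖ ^ d := by gcongr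
  have hKq : K * (2 * q) ≤ μ / 2 := by
    have h4 : 4 * d * K / μ ≤ ‖s‖ := h2.trans hs
    rw [div_le_iff₀ hμ] at h4
    have h5 : K * (2 * q) = 2 * d * K / ‖s‖ := by
      rw [hq]; ring
    rw [h5, div_le_iff₀ hs0]
    linarith
  have hW := top_wd hd (by linarith : (d : ℝ) ≤ ‖s‖)
  set W : ℝ := wt d d * ‖s‖ ^ d with hWdef
  have hW0 : 0 ≤ W := by positivity
  have hmain : μ / 2 * W ≤ ‖T.eval s‖ := by
    have h4 : ‖T.coeff d * s ^ d‖ ≤ ‖T.eval s‖ + ‖∑ k ∈ Finset.range d, T.coeff k * s ^ k‖ := by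
      have h5 : T.coeff d * s ^ d = T.eval s - ∑ k ∈ Finset.range d, T.coeff k * s ^ k := by
        rw [hev]; ring
      rw [h5]
      exact norm_sub_le _ _
    have h6 : K * W * (2 * q) ≤ μ / 2 * W := by
      calc K * W * (2 * q) = K * (2 * q) * W := by ring
        _ ≤ μ / 2 * W := by gcongr
    linarith
  have h4 : 4 * d / μ ≤ ‖s‖ := h3.trans hs
  rw [div_le_iff₀ hμ] at h4
  calc 2 * ‖s‖ = (4 * d) * ‖s‖ / (2 * d) := by
        have : (d : ℝ) ≠ 0 := by linarith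
        field_simp
        ring
    _ ≤ (‖s‖ * μ) * ‖s‖ / (2 * d) := by gcongr
    _ = μ / 2 * (‖s‖ ^ 2 / d) := by
        have : (d : ℝ) ≠ 0 := by linarith
        field_simp
    _ ≤ μ / 2 * W := by gcongr
    _ ≤ _ := hmain

end H73.PT
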