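import Pool.Agent.H73.PT.ChA
import Pool.Agent.H73.PT.ChB
import Pool.Agent.H73.PT.Cnt
import Pool.Agent.H73.PT.Pre
import Pool.Agent.H73.PT.Top
import Pool.Agent.H73.PT.Num
import Pool.Agent.H73.PT.ChN

/-!
# [H73 PT CHC] the theorem in scaled variables

`d ≥ d0` (`num`), `m`; `r = √(9 m)`, `H = d²`, `ρ² = 7200 m² + 1`, `λ = max 1 √(Fk d T/d)`, so `Fk d T ≤ d λ²`, `λ² ≤ 1 + Fk d T/d`; `q = λ w_m`; `T0` from `pre`.
`r^(2m) = (9 m)^m`, so `wt_m`: `(q r^m)² ≥ λ² 9^m/2 ≥ 9^m/2`, `(q (2r)^m)² ≥ 9^m 4^m/2`; `ρ ≤ d²` (`ρ² ≤ 2 d`), `H' = H + ρ ≤ 2 d²`: the hypothesis of `choose_c`: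
`8 π d^5/9^m + 16 π² d^9/(9^m 4^m) ≤ π/64 + π/64`. `c` from `choose_c`, `S = Tc T0 m q c`.
`S - T0` has the only coefficient `c q` at `m`: `Fk (S - T0) ≤ λ²/16`; `Fk (S - T) ≤ 2 * 3 λ² + 2 λ²/16 ≤ 7 λ²`, `Fk S ≤ 2 d λ² + 14 λ² ≤ 4 d λ²`; `‖S.coeff m‖ ≥ λ w_m/2 - λ w_m/4`, `S.coeff d = T0.coeff d`,
`S.natDegree = d`. `count` (`K = 2 √d λ`, `κ = λ w_m/4`): for a set `Z` of zeros `2^card * (m λ w_m r^(m-1)/4) ≤ 2 √d λ exp((4r+1)²/2)`; `(4 r + 1)² ≤ 170 m` (`r = 3 √m`, `m ≥ 2`: `(12 √m + 1)² ≤ 170 m`),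
`w_m r^m ≥ 1`, so `2^card ≤ 8 √d r exp(85 m) ≤ 24 √(d m) exp(85 m) ≤ 2^(200 m)`, `N = 200 m`. `choose_a` with `B = Bd T0 m q r H c`: `200 m π 36 m + 1 < π (7200 m² + 1)`.
`T' = S + C a`: `Fk (T' - T) ≤ 2 * 7 λ² + 2 ρ² ≤ (14 + 2 * 300000) (log d)² λ²` (`log d ≥ 1`); `Fk T' ≤ 2 d λ² + 2 (14 λ² + 2 ρ²) ≤ 4 d λ²` (last but one fact of `num`, `λ ≥ 1`).
`top_le` with `K = 2 √d λ`, `μ = λ/2`, `H = d²`: `4 d K/μ = 16 d √d ≤ d²` (`d ≥ 256`), `4 d/μ = 8 d/λ ≤ d²`. A critical point `x` of `T'` is one of `S`. If `r ≤ ‖x‖`: `‖T' x‖ > H' - ρ = H`, `esc_of` (`k = 1`).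
If `‖x‖ ≤ r`: `y = T' x = S x + a`, `‖y‖ > 2 r`; if `H ≤ ‖y‖`: `esc_of` with `k = 1`; otherwise `a ∉ Bd` gives `‖S y + a‖ = ‖T' y‖ > H`: `esc_of` with `k = 2`.
-/

set_option autoImplicit false

namespace H73.PT

open Polynomial

theorem Fk_CX {d k : ℕ} (hk : k ≤ d) (a : ℂ) : Fk d (C a * X ^ k) = ‖a‖ ^ 2 / wt d k ^ 2 := by
  unfold Fk
  rw [Finset.sum_eq_single k]
  · simp
  · intro b _ hb
    rw [coeff_C_mul_X_pow, if_neg hb]
    simp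
  · intro h
    exact absurd (Finset.mem_range.2 (by omega)) h

theorem Fk_C (d : ℕ) (a : ℂ) : Fk d (C a) = ‖a‖ ^ 2 := by
  have h := Fk_CX (d := d) (Nat.zero_le d) a
  simpa [wt_zero] using h

theorem sq_num {d lam : ℝ} (hd : 0 ≤ d) : (2 * √d * lam) ^ 2 = 4 * d * lam ^ 2 := by
  rw [mul_pow, mul_pow, Real.sq_sqrt hd]; norm_num

/-- the polynomial `S = T_c` -/
theorem stepS {d m : ℕ} (hm : 2 ≤ m) (hmlt : m < d) (hd7 : 7 ≤ d) {T T0 : ℂ[X]} {lam q : ℝ} (hlam1 : 1 ≤ lam)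
    (hq : q = lam * wt d m) (hFlam : Fk d T ≤ d * lam ^ 2)
    (hT0d : T0.natDegree ≤ d) (hT0F : Fk d (T0 - T) ≤ 3 * lam ^ 2)
    (hT0m : lam / 2 * wt d m ≤ ‖T0.coeff m‖) (hT0dd : lam / 2 * wt d d ≤ ‖T0.coeff d‖)
    {c : ℂ} (hc : ‖c‖ < 1 / 4) :
    (Tc T0 m q c).natDegree ≤ d ∧ Fk d (Tc T0 m q c - T) ≤ 7 * lam ^ 2 ∧
      Fk d (Tc T0 m q c) ≤ (2 * √d * lam) ^ 2 ∧ lam * wt d m / 4 ≤ ‖(Tc T0 m q c).coeff m‖ ∧
      lam / 2 * wt d d ≤ ‖(Tc T0 m q c).coeff d‖ := by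
  obtain ⟨S, hSdef⟩ : ∃ S : ℂ[X], S = Tc T0 m q c := ⟨_, rfl⟩
  rw [← hSdef]
  have hw : 0 < wt d m := wt_pos (by omega) hmlt.le
  have hlam0 : 0 < lam := by linarith
  have hlamsq : 0 < lam ^ 2 := by positivity
  have hq0 : 0 < q := by rw [hq]; positivity
  have hST0 : S - T0 = C (c * q) * X ^ m := by rw [hSdef, Tc]; ring
  have hFST0 : Fk d (S - T0) ≤ lam ^ 2 / 16 := by
    rw [hST0, Fk_CX hmlt.le, div_le_iff₀ (by positivity), norm_mul, Complex.norm_real,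
      Real.norm_of_nonneg hq0.le, hq, mul_pow]
    have hc2 : ‖c‖ ^ 2 ≤ (1 / 4) ^ 2 := pow_le_pow_left₀ (norm_nonneg _) hc.le 2
    calc ‖c‖ ^ 2 * (lam * wt d m) ^ 2 ≤ (1 / 4) ^ 2 * (lam * wt d m) ^ 2 :=
          mul_le_mul_of_nonneg_right hc2 (by positivity)
      _ = lam ^ 2 / 16 * wt d m ^ 2 := by ring
  have hFST : Fk d (S - T) ≤ 7 * lam ^ 2 := by
    have e : S - T = (S - T0) + (T0 - T) := by ring
    have h := Fk_add_le d (S - T0) (T0 - T)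
    rw [← e] at h
    linarith
  have hFS : Fk d S ≤ (2 * √d * lam) ^ 2 := by
    have e : S = (S - T) + T := by ring
    have h1 := Fk_add_le d (S - T) T
    rw [← e] at h1
    rw [sq_num (Nat.cast_nonneg d)]
    have hdR : (7 : ℝ) ≤ d := by exact_mod_cast hd7
    have h2 : 7 * lam ^ 2 ≤ d * lam ^ 2 := mul_le_mul_of_nonneg_right hdR hlamsq.le
    linarith
  have hSm : lam * wt d m / 4 ≤ ‖S.coeff m‖ := by
    have e : S.coeff m = T0.coeff m + c * q := by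
      rw [hSdef, Tc, coeff_add, coeff_C_mul_X_pow, if_pos rfl]
    have h2 : ‖c * (q : ℂ)‖ ≤ 1 / 4 * (lam * wt d m) := by
      rw [norm_mul, Complex.norm_real, Real.norm_of_nonneg hq0.le, ← hq]
      exact mul_le_mul_of_nonneg_right hc.le hq0.le
    have h3 : ‖T0.coeff m‖ ≤ ‖T0.coeff m + c * q‖ + ‖c * (q : ℂ)‖ := by
      have := norm_sub_le (T0.coeff m + c * q) (c * q)
      simpa using this
    rw [e]
    linarith
  have hSd : S.coeff d = T0.coeff d := by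
    rw [hSdef, Tc, coeff_add, coeff_C_mul_X_pow, if_neg (by omega), add_zero]
  refine ⟨?_, hFST, hFS, hSm, by rw [hSd]; exact hT0dd⟩
  rw [hSdef, Tc]
  exact (natDegree_add_le _ _).trans (max_le hT0d ((natDegree_C_mul_X_pow_le _ _).trans hmlt.le))

/-- the polynomial `T' = S + a` -/
theorem stepT {d : ℕ} (hd : 1 ≤ d) {T S : ℂ[X]} {lam R : ℝ} (hlam1 : 1 ≤ lam) (hR : 0 ≤ R)
    (hFlam : Fk d T ≤ d * lam ^ 2) (hSd : S.natDegree ≤ d) (hFST : Fk d (S - T) ≤ 7 * lam ^ 2)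
    (hc : lam / 2 * wt d d ≤ ‖S.coeff d‖) (h28 : 28 + 4 * R ≤ 2 * d) {a : ℂ} (ha : ‖a‖ ^ 2 ≤ R) :
    (S + C a).natDegree = d ∧ Fk d (S + C a - T) ≤ 14 * lam ^ 2 + 2 * R ∧
      Fk d (S + C a) ≤ (2 * √d * lam) ^ 2 ∧ lam / 2 * wt d d ≤ ‖(S + C a).coeff d‖ := by
  have hlam0 : 0 < lam := by linarith
  have hlamsq : 1 ≤ lam ^ 2 := one_le_pow₀ hlam1
  have hwd : 0 < wt d d := wt_pos hd le_rfl
  have hcd : (S + C a).coeff d = S.coeff d := by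
    rw [coeff_add, coeff_C, if_neg (by omega), add_zero]
  have hSdne : S.coeff d ≠ 0 := by
    intro h0
    rw [h0, norm_zero] at hc
    have : 0 < lam / 2 * wt d d := by positivity
    linarith
  have hnd : (S + C a).natDegree ≤ d := (natDegree_add_le _ _).trans (max_le hSd (by simp))
  have hF : Fk d (S + C a - T) ≤ 14 * lam ^ 2 + 2 * R := by
    have e : S + C a - T = (S - T) + C a := by ring
    rw [e]
    have h1 := Fk_add_le d (S - T) (C a)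
    rw [Fk_C] at h1
    linarith
  refine ⟨le_antisymm hnd (le_natDegree_of_ne_zero (by rw [hcd]; exact hSdne)), hF, ?_, by rw [hcd]; exact hc⟩
  have e : S + C a = (S + C a - T) + T := by ring
  have h1 := Fk_add_le d (S + C a - T) T
  rw [← e] at h1
  rw [sq_num (Nat.cast_nonneg d)]
  have h2 : (28 + 4 * R) * lam ^ 2 ≤ 2 * d * lam ^ 2 := mul_le_mul_of_nonneg_right h28 (by positivity)
  have h3 : 4 * R * 1 ≤ 4 * R * lam ^ 2 := mul_le_mul_of_nonneg_left hlamsq (by positivity)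
  linarith

/-- the critical points escape -/
theorem stepE {S T0 : ℂ[X]} {a c : ℂ} {m : ℕ} {q r H ρ : ℝ} (hH : 0 < H) (ha : ‖a‖ ≤ ρ)
    (hS : S = Tc T0 m q c)
    (htop : ∀ s : ℂ, H ≤ ‖s‖ → 2 * ‖s‖ ≤ ‖(S + C a).eval s‖)
    (hout : ∀ x : ℂ, r ≤ ‖x‖ → S.derivative.eval x = 0 → H + ρ < ‖S.eval x‖)
    (haB : a ∉ Bd T0 m q r H c)
    (hin : ∀ x : ℂ, ‖x‖ ≤ r → S.derivative.eval x = 0 → 2 * r < ‖S.eval x + a‖) :
    AllEsc (S + C a) := by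
  have hev : ∀ z : ℂ, (S + C a).eval z = S.eval z + a := by intro z; simp
  intro x hx
  have hx' : S.derivative.eval x = 0 := by simpa using hx
  rcases le_total r ‖x‖ with hrx | hrx
  · refine esc_of hH htop (k := 1) ?_
    have h1 := hout x hrx hx'
    have h2 : ‖S.eval x‖ ≤ ‖S.eval x + a‖ + ‖a‖ := by
      have := norm_sub_le (S.eval x + a) a
      simpa using this
    simp only [Function.iterate_one, hev]
    linarith
  · have h1 := hin x hrx hx'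
    by_cases hy : H ≤ ‖S.eval x + a‖
    · exact esc_of hH htop (k := 1) (by simpa using hy)
    · push Not at hy
      refine esc_of hH htop (k := 2) ?_
      by_contra hcon
      push Not at hcon
      apply haB
      refine ⟨x, hrx, ?_, ?_, ?_, ?_⟩
      · rw [← hS]; exact hx'
      · rw [← hS]; exact h1.le
      · rw [← hS]; exact hy.le
      · rw [← hS]
        simpa [Function.iterate_succ] using hcon.le

theorem main_scaled : ∃ C : ℝ, 0 < C ∧ ∃ d0 : ℕ, 2 ≤ d0 ∧ ∀ d : ℕ, d0 ≤ d → ∀ T : ℂ[X], T.natDegree ≤ d →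
    ∃ T' : ℂ[X], T'.natDegree = d ∧ AllEsc T' ∧
      Fk d (T' - T) ≤ C * Real.log d ^ 2 * (1 + Fk d T / d) := by
  obtain ⟨d0, h300, hnum⟩ := num
  refine ⟨600014, by norm_num, d0, by omega, fun d hd T hT => ?_⟩
  obtain ⟨m, hm, hmd, h9, h94, hlog, h28, h24⟩ := hnum d hd
  have hd300 : 300 ≤ d := h300.trans hd
  have hdR : (300 : ℝ) ≤ d := by exact_mod_cast hd300
  have hd0 : (0 : ℝ) < d := by linarith
  have hm2R : (2 : ℝ) ≤ m := by exact_mod_cast hm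
  have hm0R : (0 : ℝ) ≤ m := by linarith
  have hmlt : m < d := by nlinarith
  have hlog1 : 1 ≤ Real.log d := by
    rw [Real.le_log_iff_exp_le hd0]
    have := Real.exp_one_lt_d9
    linarith
  obtain ⟨lam, hlam1, hFlam, hlamle⟩ := lam_ex (Fk_nonneg d T) hd0
  have hlam0 : 0 < lam := by linarith
  have hlamsq : 1 ≤ lam ^ 2 := one_le_pow₀ hlam1
  have hw : 0 < wt d m := wt_pos (by omega) hmlt.le
  obtain ⟨r, hrdef⟩ : ∃ r : ℝ, r = 3 * √m := ⟨_, rfl⟩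
  have hr0 : 0 < r := by
    rw [hrdef]
    have : 0 < √(m : ℝ) := Real.sqrt_pos.2 (by linarith)
    positivity
  have hrsq : r ^ 2 = 9 * m := by
    rw [hrdef, mul_pow, Real.sq_sqrt hm0R]; norm_num
  obtain ⟨q, hqdef⟩ : ∃ q : ℝ, q = lam * wt d m := ⟨_, rfl⟩
  have hq0 : 0 < q := by rw [hqdef]; positivity
  have hwm := wt_m (d := d) (m := m) (by omega) hmd
  obtain ⟨hAq, hBq⟩ := qr_num hlam1 hrsq hwm
  rw [← hqdef] at hAq hBq
  have hwr := wr_num (by omega) hw hr0 hrsq hwm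
  obtain ⟨ρ, hρdef⟩ : ∃ ρ : ℝ, ρ = √(7200 * (m : ℝ) ^ 2 + 1) := ⟨_, rfl⟩
  have hρ0 : 0 ≤ ρ := by rw [hρdef]; exact Real.sqrt_nonneg _
  have hρsq : ρ ^ 2 = 7200 * (m : ℝ) ^ 2 + 1 := by rw [hρdef, Real.sq_sqrt (by positivity)]
  have hρH : ρ ≤ (d : ℝ) ^ 2 := rho_num (by omega) hρ0 (by rw [hρsq]; linarith)
  obtain ⟨T0, hT0d, hT0F, hT0c⟩ := pre hm hmlt hT hlam1
  have h1ne : T0.coeff 1 ≠ 0 := by
    have h := hT0c 1 (Or.inl rfl)
    have hw1 : 0 < wt d 1 := wt_pos (by omega) (by omega)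
    intro h0
    rw [h0, norm_zero] at h
    have : 0 < lam / 2 * wt d 1 := by positivity
    linarith
  have hH0 : (0 : ℝ) < (d : ℝ) ^ 2 := by positivity
  have hnumA := hA_num (by omega) hmlt.le h9 h94 hAq hBq (H' := (d : ℝ) ^ 2 + ρ) (by linarith) (by linarith)
  obtain ⟨c, hc, hout, hBd⟩ := choose_c hT0d h1ne hm hq0 hr0 hH0.le (H' := (d : ℝ) ^ 2 + ρ) (by linarith) hnumA
  obtain ⟨hSnd, hFST, hFS, hSm, hSd⟩ := stepS hm hmlt (by omega) hlam1 hqdef hFlam hT0d hT0F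
    (hT0c m (Or.inr (Or.inl rfl))) (hT0c d (Or.inr (Or.inr rfl))) hc
  have hNcard : ∀ Z : Finset ℂ, (∀ x ∈ Z, ‖x‖ ≤ r ∧ (Tc T0 m q c).derivative.eval x = 0) →
      Z.card ≤ 200 * m := by
    intro Z hZ
    have h1 := count (by omega) (by omega : 1 ≤ m) hSnd (K := 2 * √d * lam) (by positivity) hFS hSm hr0 Z hZ
    exact card_num hm hlam0 hw hrdef hwr h24 h1
  obtain ⟨a, ha, haB, hin⟩ := choose_a hr0 hρ0 hNcard hBd (area_num hrsq hρsq)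
  have ha2 : ‖a‖ ^ 2 ≤ 7200 * (m : ℝ) ^ 2 + 1 := by
    rw [← hρsq]; exact pow_le_pow_left₀ (norm_nonneg _) ha 2
  have hR : (0 : ℝ) ≤ 7200 * (m : ℝ) ^ 2 + 1 := by positivity
  obtain ⟨hdeg, hFT'T, hFT', hcd⟩ := stepT (by omega) hlam1 hR hFlam hSnd hFST hSd h28 ha2
  obtain ⟨ht1, ht2, ht3⟩ := top_num (d := d) (by omega) hlam1
  have htop := top_le (d := d) (by omega) hdeg.le (K := 2 * √d * lam) (μ := lam / 2) (H := (d : ℝ) ^ 2)
    (by positivity) (by positivity) hFT' hcd ht1 ht2 ht3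
  refine ⟨Tc T0 m q c + C a, hdeg, stepE hH0 ha rfl htop hout haB hin, ?_⟩
  have hl2 : 1 ≤ Real.log d ^ 2 := one_le_pow₀ hlog1
  calc Fk d (Tc T0 m q c + C a - T) ≤ 14 * lam ^ 2 + 2 * (7200 * (m : ℝ) ^ 2 + 1) := hFT'T
    _ ≤ 14 * lam ^ 2 * Real.log d ^ 2 + 2 * (300000 * Real.log d ^ 2) * lam ^ 2 := by
        have h2 : 14 * lam ^ 2 * 1 ≤ 14 * lam ^ 2 * Real.log d ^ 2 :=
          mul_le_mul_of_nonneg_left hl2 (by positivity)
        have h3 : 2 * (300000 * Real.log d ^ 2) * 1 ≤ 2 * (300000 * Real.log d ^ 2) * lam ^ 2 :=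
          mul_le_mul_of_nonneg_left hlamsq (by positivity)
        linarith
    _ = 600014 * Real.log d ^ 2 * lam ^ 2 := by ring
    _ ≤ 600014 * Real.log d ^ 2 * (1 + Fk d T / d) := mul_le_mul_of_nonneg_left hlamle (by positivity)

end H73.PT
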