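import Pool.Agent.H73.PT.Def

/-!
# [H73 PT CRT] the critical curve

`crit_cx`: `T_c' = T' + c q m X^(m-1)`; solve for `c`; `T_c x = T x + c q x^m = T x - x T'(x)/m = VV x`.
`cx_diff`: quotient rule. `der_cx`: `VV x = T x + cx x * (q x^m)` for `x ≠ 0` (near `x`), so `VV' = T' + cx' q x^m + cx q m x^(m-1) = cx' q x^m`.
`VV_deg`: degree of `X * derivative T` is at most that of `T`.
`VV_card`: if some `x` has `VV'(x) ≠ 0` then `VV - C w ≠ 0`, at most `d` roots (`Polynomial.card_roots'`, `natDegree_sub_C`).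
-/

set_option autoImplicit false

namespace H73.PT

open Polynomial

theorem Tc_der (T : ℂ[X]) (m : ℕ) (q : ℝ) (c x : ℂ) :
    (Tc T m q c).derivative.eval x = T.derivative.eval x + c * q * (m * x ^ (m - 1)) := by
  unfold Tc
  simp only [derivative_add, derivative_mul, derivative_C, zero_mul, zero_add, derivative_X_pow,
    eval_add, eval_mul, eval_C, eval_pow, eval_X]

theorem VV_eval (T : ℂ[X]) (m : ℕ) (x : ℂ) :
    (VV T m).eval x = T.eval x - (m : ℂ)⁻¹ * (x * T.derivative.eval x) := by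
  unfold VV
  simp only [eval_sub, eval_mul, eval_C, eval_X]

theorem cx_mul {T : ℂ[X]} {m : ℕ} (hm : 2 ≤ m) {q : ℝ} (hq : 0 < q) {x : ℂ} (hx : x ≠ 0) :
    cx T m q x * q * (m * x ^ (m - 1)) = -T.derivative.eval x := by
  unfold cx
  have h1 : (m : ℂ) ≠ 0 := by exact_mod_cast (by omega : m ≠ 0)
  have h2 : (q : ℂ) ≠ 0 := by exact_mod_cast hq.ne'
  have h3 : x ^ (m - 1) ≠ 0 := pow_ne_zero _ hx
  field_simp

theorem crit_cx {T : ℂ[X]} {m : ℕ} (hm : 2 ≤ m) {q : ℝ} (hq : 0 < q) {c x : ℂ} (hx : x ≠ 0)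
    (h : (Tc T m q c).derivative.eval x = 0) : c = cx T m q x ∧ (Tc T m q c).eval x = (VV T m).eval x := by
  rw [Tc_der] at h
  have h1 : (m : ℂ) ≠ 0 := by exact_mod_cast (by omega : m ≠ 0)
  have h2 : (q : ℂ) ≠ 0 := by exact_mod_cast hq.ne'
  have h3 : x ^ (m - 1) ≠ 0 := pow_ne_zero _ hx
  constructor
  · have h4 := cx_mul (T := T) hm hq hx
    have h5 : (c - cx T m q x) * (q * (m * x ^ (m - 1))) = 0 := by
      linear_combination h - h4
    rcases mul_eq_zero.1 h5 with h6 | h6
    · exact sub_eq_zero.1 h6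
    · exact absurd h6 (mul_ne_zero h2 (mul_ne_zero h1 h3))
  · rw [VV_eval]
    unfold Tc
    simp only [eval_add, eval_mul, eval_C, eval_pow, eval_X]
    have h4 : x ^ m = x ^ (m - 1) * x := by
      rw [← pow_succ, Nat.sub_add_cancel (by omega)]
    have h5 : T.derivative.eval x = -(c * q * (m * x ^ (m - 1))) := by
      linear_combination h
    rw [h5, h4]
    field_simp
    ring

theorem crit_ne {T : ℂ[X]} {m : ℕ} (hm : 2 ≤ m) {q : ℝ} {c : ℂ} (h1 : T.coeff 1 ≠ 0) {x : ℂ}
    (h : (Tc T m q c).derivative.eval x = 0) : x ≠ 0 := by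
  intro hx
  rw [Tc_der, hx, zero_pow (by omega), mul_zero, mul_zero, add_zero, ← coeff_zero_eq_eval_zero,
    coeff_derivative] at h
  apply h1
  simpa using h

theorem cx_diff {T : ℂ[X]} {m : ℕ} (hm : 2 ≤ m) {q : ℝ} (hq : 0 < q) :
    DifferentiableOn ℂ (cx T m q) {x | x ≠ 0} := by
  intro x hx
  have h1 : (m : ℂ) ≠ 0 := by exact_mod_cast (by omega : m ≠ 0)
  have h2 : (q : ℂ) ≠ 0 := by exact_mod_cast hq.ne'
  have h3 : x ^ (m - 1) ≠ 0 := pow_ne_zero _ hx
  have h4 : DifferentiableAt ℂ (fun z : ℂ => -(T.derivative.eval z)) x :=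
    (Polynomial.differentiable _ x).neg
  have h5 : DifferentiableAt ℂ (fun z : ℂ => (m : ℂ) * q * z ^ (m - 1)) x :=
    (differentiableAt_id.pow _).const_mul _
  exact (h4.div h5 (mul_ne_zero (mul_ne_zero h1 h2) h3)).differentiableWithinAt

theorem der_cx {T : ℂ[X]} {m : ℕ} (hm : 2 ≤ m) {q : ℝ} (hq : 0 < q) {x : ℂ} (hx : x ≠ 0) :
    (VV T m).derivative.eval x = deriv (cx T m q) x * (q * x ^ m) := by
  have hne : {x : ℂ | x ≠ 0} ∈ nhds x := isOpen_ne.mem_nhds hx
  have h1 : HasDerivAt (cx T m q) (deriv (cx T m q) x) x :=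
    ((cx_diff hm hq).differentiableAt hne).hasDerivAt
  have h2 : HasDerivAt (fun z : ℂ => (q : ℂ) * z ^ m) (q * (m * x ^ (m - 1))) x :=
    (hasDerivAt_pow m x).const_mul _
  have h3 := (T.hasDerivAt x).add (h1.mul h2)
  have h4 := (VV T m).hasDerivAt x
  have h5 : (fun z : ℂ => (VV T m).eval z) =ᶠ[nhds x]
      ((fun z : ℂ => T.eval z) + (cx T m q * fun z : ℂ => (q : ℂ) * z ^ m)) := by
    filter_upwards [hne] with z hz
    have hz' : z ≠ 0 := hz
    have h6 := cx_mul (T := T) hm hq hz'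
    have h7 : (m : ℂ) ≠ 0 := by exact_mod_cast (by omega : m ≠ 0)
    have h8 : z ^ m = z ^ (m - 1) * z := by
      rw [← pow_succ, Nat.sub_add_cancel (by omega)]
    simp only [Pi.add_apply, Pi.mul_apply]
    rw [VV_eval, h8]
    have h9 : T.derivative.eval z = -(cx T m q z * q * (m * z ^ (m - 1))) := by
      rw [h6, neg_neg]
    rw [h9]
    field_simp
    ring
  have h6 := (h4.congr_of_eventuallyEq h5.symm).unique h3
  have h7 := cx_mul (T := T) hm hq hx
  rw [h6]
  linear_combination h7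

theorem VV_card {T : ℂ[X]} {m d : ℕ} (hT : T.natDegree ≤ d) (w : ℂ) :
    {x : ℂ | (VV T m).eval x = w ∧ (VV T m).derivative.eval x ≠ 0}.encard ≤ d := by
  by_cases hV : VV T m - C w = 0
  · have : {x : ℂ | (VV T m).eval x = w ∧ (VV T m).derivative.eval x ≠ 0} = ∅ := by
      ext x
      simp only [Set.mem_ofPred_eq, Set.mem_empty_iff_false, iff_false, not_and, not_not]
      intro _
      rw [sub_eq_zero.1 hV]
      simp
    rw [this, Set.encard_empty]
    exact bot_le
  · have h1 : {x : ℂ | (VV T m).eval x = w ∧ (VV T m).derivative.eval x ≠ 0} ⊆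
        ((VV T m - C w).roots.toFinset : Set ℂ) := by
      intro x hx
      simp only [Finset.mem_coe, Multiset.mem_toFinset, mem_roots hV, IsRoot.def, eval_sub, eval_C]
      exact sub_eq_zero.2 hx.1
    have h2 : (VV T m - C w).natDegree ≤ d := by
      rw [natDegree_sub_C]
      unfold VV
      refine (natDegree_sub_le _ _).trans (max_le hT ?_)
      refine (natDegree_C_mul_le _ _).trans ?_
      by_cases h0 : T.natDegree = 0
      · rw [natDegree_eq_zero.1 h0 |>.choose_spec.symm]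
        simp
      · refine (natDegree_mul_le).trans ?_
        rw [natDegree_X]
        have := natDegree_derivative_lt h0
        omega
    calc _ ≤ ((VV T m - C w).roots.toFinset : Set ℂ).encard := Set.encard_le_encard h1
      _ = (((VV T m - C w).roots.toFinset.card : ℕ) : ℕ∞) := Set.encard_coe_eq_coe_finsetCard _
      _ ≤ d := by
          exact_mod_cast (Multiset.toFinset_card_le _).trans ((card_roots' _).trans h2)

end H73.PT
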