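import Mathlib

/-!
# [H73 PT] MP_8f2e1c_an, hand-in PolynomialThreshold: definitions

THEOREM. `N_d` = squared Bombieri-Weyl norm. (1) every polynomial `P` of degree `≤ d`, `d ≥ 2`, has a polynomial `P'` of degree `d`, all
of whose critical points escape to infinity, with `N_d(P - P') ≤ C (log d)²/d (N_d(P) + 1)`. (2) the order `1/d` cannot be improved.
(3) Fatou's conjecture for polynomials of all degrees holds if and only if along a sequence of degrees every polynomial is within
`o(1/d) (N_d(P) + 1)` of hyperbolic polynomials of degree `d`.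

PROOF of (1). `T(s) = √d P(s/√d)`, norm `Fk` (`= d N_d(P)`), `λ = max(1, √(Fk T/d))`, `m = ⌈5 log d⌉`, `r = 3 √m`, `H = d²`, `q = λ w_m`.
`Pre`: change `T` to `T0` with coefficients `≥ λ w_k/2` for `k = 1, m, d`. `T_c = T0 + c q X^m`, `‖c‖ < 1/4`, `T' = T_c + a`, `‖a‖ ≤ ρ`,
`ρ² = 7200 m² + 1`. The critical points `x ≠ 0` of `T_c` satisfy `c = cx x`, critical value `VV x`, `VV' = cx' q x^m`. So the area of
the `c` for which some critical point with `‖x‖ ≥ r` has `‖T_c x‖ ≤ H + ρ` is small (`Out`; area formula `Jac`): the outer critical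
points go beyond `d²` and escape (`Top`). There are at most `200 m` inner critical points (`Mxm`, `Cnt`); the constant `a` is chosen
such that `y = T'(x)` satisfies `‖y‖ > 2 r` and (`Inn`, the same area formula for fixed `y`) `‖y‖ > H` or `‖T'(y)‖ > H`.
-/

set_option autoImplicit false

namespace H73.PT

open Polynomial Filter Topology

/-- `w_k = √(binom(d,k)/d^k)` -/
noncomputable def wt (d k : ℕ) : ℝ := Real.sqrt ((d.choose k : ℝ) / (d : ℝ) ^ k)

/-- the squared norm `∑ |t_k|²/w_k²` of a polynomial of degree at most `d` -/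
noncomputable def Fk (d : ℕ) (T : ℂ[X]) : ℝ :=
  ∑ k ∈ Finset.range (d + 1), ‖T.coeff k‖ ^ 2 / wt d k ^ 2

/-- the orbit of `x` escapes to infinity -/
def Esc (T : ℂ[X]) (x : ℂ) : Prop :=
  Tendsto (fun k : ℕ => ‖(fun z : ℂ => T.eval z)^[k] x‖) atTop atTop

/-- all critical points escape -/
def AllEsc (T : ℂ[X]) : Prop := ∀ x : ℂ, T.derivative.eval x = 0 → Esc T x

/-- the family `T_c = T + c q X^m` -/
noncomputable def Tc (T : ℂ[X]) (m : ℕ) (q : ℝ) (c : ℂ) : ℂ[X] := T + C (c * q) * X ^ m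

/-- the parameter `c` for which `x ≠ 0` is a critical point of `T_c` -/
noncomputable def cx (T : ℂ[X]) (m : ℕ) (q : ℝ) (x : ℂ) : ℂ :=
  -(T.derivative.eval x) / (m * q * x ^ (m - 1))

/-- the critical value of `T_c` at `x` for `c = cx x`: `T - x T'/m` -/
noncomputable def VV (T : ℂ[X]) (m : ℕ) : ℂ[X] := T - C ((m : ℂ)⁻¹) * (X * derivative T)

/-- the set of the bad constants `a` for the parameter `c`, inner critical points -/
def Bd (T : ℂ[X]) (m : ℕ) (q r H : ℝ) (c : ℂ) : Set ℂ :=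
  {a | ∃ x : ℂ, ‖x‖ ≤ r ∧ (Tc T m q c).derivative.eval x = 0 ∧
    2 * r ≤ ‖(Tc T m q c).eval x + a‖ ∧ ‖(Tc T m q c).eval x + a‖ ≤ H ∧
    ‖(Tc T m q c).eval ((Tc T m q c).eval x + a) + a‖ ≤ H}

end H73.PT
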