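import Pool.Agent.H73.PT.Def

/-!
# [H73 PT EST] the weights and the evaluation bound

`wt_le_one`: `binom(d,k) ≤ d^k` (`Nat.choose_le_pow`, or `Nat.choose_le_pow_div`); for `d = 0`, `k > 0` the quotient is `0/0 = 0`, for `k = 0` it is `1`.
`wt_ratio`: `(w_k/w_d)² = binom(d,k) d^(d-k) ≤ d^(2(d-k))` (`binom(d,k) = binom(d,d-k) ≤ d^(d-k)`, `binom(d,d) = 1`).
`wt_m`: `binom(d,m)/d^m = (∏_{i<m} (1 - i/d))/m! ≥ (1 - m/d)^m/m! ≥ (1 - m²/d)/m! ≥ (1/2)/m!` (Bernoulli `one_add_mul_le_pow`; or `Nat.pow_sub_le_descFactorial`: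
`(d + 1 - m)^m ≤ descFactorial d m = m! binom(d,m)`), and `m! ≤ m^m`.
`ev_le`: Cauchy-Schwarz (`Finset.sum_mul_sq_le_sq_mul_sq`/`inner_mul_le_norm_mul_norm`) with `T z = ∑ (t_k/w_k) (w_k z^k)` and
`∑_{k ≤ d} w_k² |z|^(2k) = ∑ binom(d,k) (|z|²/d)^k = (1 + |z|²/d)^d ≤ exp(|z|²)` (`add_pow`, `Real.one_add_div_pow_le_exp`-type bound: `1 + x ≤ exp x`).
`der_le`: Cauchy estimate on the circle of radius `1` at `z` (`Complex.norm_deriv_le_of_forall_mem_sphere_norm_le`), `ev_le` there.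
`Fk_add_le`: `|a + b|² ≤ 2 |a|² + 2 |b|²` for every coefficient.
-/

set_option autoImplicit false

namespace H73.PT

open Polynomial Finset

private theorem est_wt_sq (d k : ℕ) : wt d k ^ 2 = (d.choose k : ℝ) / (d : ℝ) ^ k := by
  unfold wt
  exact Real.sq_sqrt (by positivity)

theorem wt_pos {d k : ℕ} (hd : 1 ≤ d) (hk : k ≤ d) : 0 < wt d k := by
  unfold wt
  apply Real.sqrt_pos.2
  have h1 : 0 < d.choose k := Nat.choose_pos hk
  have h2 : (0 : ℝ) < (d : ℝ) := by exact_mod_cast hd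
  have h3 : (0 : ℝ) < (d.choose k : ℝ) := by exact_mod_cast h1
  positivity

private theorem est_wt_nonneg (d k : ℕ) : 0 ≤ wt d k := Real.sqrt_nonneg _

theorem wt_le_one (d k : ℕ) : wt d k ≤ 1 := by
  unfold wt
  apply Real.sqrt_le_one.2
  apply div_le_one_of_le₀ _ (by positivity)
  exact_mod_cast Nat.choose_le_pow d k

theorem wt_zero (d : ℕ) : wt d 0 = 1 := by
  unfold wt
  simp

theorem wt_ratio {d k : ℕ} (hd : 1 ≤ d) (hk : k ≤ d) : wt d k ≤ wt d d * (d : ℝ) ^ (d - k) := by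
  have hd0 : (0 : ℝ) < (d : ℝ) := by exact_mod_cast hd
  have h0 : 0 ≤ wt d d * (d : ℝ) ^ (d - k) := mul_nonneg (est_wt_nonneg d d) (by positivity)
  rw [← pow_le_pow_iff_left₀ (est_wt_nonneg d k) h0 (two_ne_zero), mul_pow, est_wt_sq, est_wt_sq,
    Nat.choose_self]
  have h1 : (d.choose k : ℝ) ≤ (d : ℝ) ^ (d - k) := by
    rw [← Nat.choose_symm hk]
    exact_mod_cast Nat.choose_le_pow d (d - k)
  have h2 : (d : ℝ) ^ d = (d : ℝ) ^ k * (d : ℝ) ^ (d - k) := by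
    rw [← pow_add]
    congr 1
    omega
  rw [h2, Nat.cast_one]
  rw [div_le_iff₀ (by positivity)]
  have h3 : 1 / ((d : ℝ) ^ k * (d : ℝ) ^ (d - k)) * ((d : ℝ) ^ (d - k)) ^ 2 * (d : ℝ) ^ k =
      (d : ℝ) ^ (d - k) := by
    field_simp
  rw [h3]
  exact h1

theorem wt_m {d m : ℕ} (hm : 1 ≤ m) (hmd : 2 * m ^ 2 ≤ d) :
    (9 : ℝ) ^ m / 2 ≤ wt d m ^ 2 * (9 * m : ℝ) ^ m := by
  have hd1 : 1 ≤ d := by nlinarith
  have hmd' : m ≤ d := by nlinarith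
  have hd0 : (0 : ℝ) < (d : ℝ) := by exact_mod_cast hd1
  have hm0 : (0 : ℝ) < (m : ℝ) := by exact_mod_cast hm
  rw [est_wt_sq, mul_pow]
  have h1 : (d + 1 - m) ^ m ≤ m.factorial * d.choose m := by
    rw [← Nat.descFactorial_eq_factorial_mul_choose]
    exact Nat.pow_sub_le_descFactorial d m
  have h2 : m.factorial ≤ m ^ m := Nat.factorial_le_pow m
  have h3 : (d - m) ^ m ≤ m ^ m * d.choose m :=
    (Nat.pow_le_pow_left (by omega) m).trans (h1.trans (Nat.mul_le_mul_right _ h2))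
  have h4 : ((d : ℝ) - m) ^ m ≤ (m : ℝ) ^ m * (d.choose m : ℝ) := by
    have : (((d - m) ^ m : ℕ) : ℝ) ≤ ((m ^ m * d.choose m : ℕ) : ℝ) := by exact_mod_cast h3
    push_cast [Nat.cast_sub hmd'] at this
    exact this
  have hmd2 : 2 * (m : ℝ) ^ 2 ≤ (d : ℝ) := by exact_mod_cast hmd
  have h5 : (1 : ℝ) / 2 ≤ (1 + -((m : ℝ) / d)) ^ m := by
    have h6 : (-2 : ℝ) ≤ -((m : ℝ) / d) := by
      have : (m : ℝ) / d ≤ 1 := by
        rw [div_le_one hd0]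
        exact_mod_cast hmd'
      linarith
    have h7 := one_add_mul_le_pow h6 m
    have h8 : (m : ℝ) * ((m : ℝ) / d) ≤ 1 / 2 := by
      rw [← mul_div_assoc, div_le_iff₀ hd0]
      nlinarith
    nlinarith
  have h9 : ((d : ℝ) - m) ^ m = (d : ℝ) ^ m * (1 + -((m : ℝ) / d)) ^ m := by
    rw [← mul_pow]
    congr 1
    field_simp
    ring
  have h10 : (d : ℝ) ^ m / 2 ≤ (m : ℝ) ^ m * (d.choose m : ℝ) := by
    refine le_trans ?_ h4
    rw [h9]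
    have : (0 : ℝ) < (d : ℝ) ^ m := by positivity
    nlinarith
  have h11 : (1 : ℝ) / 2 ≤ (d.choose m : ℝ) / (d : ℝ) ^ m * (m : ℝ) ^ m := by
    rw [div_mul_eq_mul_div, le_div_iff₀ (by positivity)]
    linarith
  have h12 : (0 : ℝ) < (9 : ℝ) ^ m := by positivity
  nlinarith

theorem Fk_nonneg (d : ℕ) (T : ℂ[X]) : 0 ≤ Fk d T := by
  unfold Fk
  exact Finset.sum_nonneg (fun k _ => by positivity)

theorem Fk_add_le (d : ℕ) (S T : ℂ[X]) : Fk d (S + T) ≤ 2 * Fk d S + 2 * Fk d T := by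
  unfold Fk
  rw [Finset.mul_sum, Finset.mul_sum, ← Finset.sum_add_distrib]
  refine Finset.sum_le_sum (fun k _ => ?_)
  rw [coeff_add]
  have h1 : ‖S.coeff k + T.coeff k‖ ^ 2 ≤ 2 * ‖S.coeff k‖ ^ 2 + 2 * ‖T.coeff k‖ ^ 2 := by
    have h2 := norm_add_le (S.coeff k) (T.coeff k)
    have h3 := norm_nonneg (S.coeff k + T.coeff k)
    nlinarith [sq_nonneg (‖S.coeff k‖ - ‖T.coeff k‖)]
  have h4 : ‖S.coeff k + T.coeff k‖ ^ 2 / wt d k ^ 2 ≤
      (2 * ‖S.coeff k‖ ^ 2 + 2 * ‖T.coeff k‖ ^ 2) / wt d k ^ 2 :=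
    div_le_div_of_nonneg_right h1 (sq_nonneg _)
  refine h4.trans (le_of_eq ?_)
  ring

theorem Fk_mono {d k : ℕ} (hd : 1 ≤ d) (hk : k ≤ d) (T : ℂ[X]) : ‖T.coeff k‖ ≤ √(Fk d T) * wt d k := by
  have hw := wt_pos hd hk
  have h1 : ‖T.coeff k‖ ^ 2 / wt d k ^ 2 ≤ Fk d T := by
    unfold Fk
    exact Finset.single_le_sum (f := fun k => ‖T.coeff k‖ ^ 2 / wt d k ^ 2)
      (fun k _ => by positivity) (Finset.mem_range.2 (by omega))
  rw [← pow_le_pow_iff_left₀ (norm_nonneg _) (by positivity) (two_ne_zero), mul_pow,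
    Real.sq_sqrt (Fk_nonneg d T)]
  rwa [div_le_iff₀ (by positivity)] at h1

theorem ev_le {d : ℕ} (hd : 1 ≤ d) {T : ℂ[X]} (hT : T.natDegree ≤ d) (z : ℂ) :
    ‖T.eval z‖ ≤ √(Fk d T) * Real.exp (‖z‖ ^ 2 / 2) := by
  have hd0 : (0 : ℝ) < (d : ℝ) := by exact_mod_cast hd
  rw [Polynomial.eval_eq_sum_range' (Nat.lt_succ_of_le hT) z]
  have h1 : ‖∑ i ∈ Finset.range (d + 1), T.coeff i * z ^ i‖ ≤
      ∑ i ∈ Finset.range (d + 1), (‖T.coeff i‖ / wt d i) * (wt d i * ‖z‖ ^ i) := by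
    refine (norm_sum_le _ _).trans (Finset.sum_le_sum (fun i hi => ?_))
    have hw := wt_pos hd (show i ≤ d by rw [Finset.mem_range] at hi; omega)
    rw [norm_mul, norm_pow]
    refine le_of_eq ?_
    field_simp
  refine h1.trans ((Real.sum_mul_le_sqrt_mul_sqrt _ _ _).trans ?_)
  have h2 : (∑ i ∈ Finset.range (d + 1), (‖T.coeff i‖ / wt d i) ^ 2) = Fk d T := by
    unfold Fk
    exact Finset.sum_congr rfl (fun i _ => by rw [div_pow])
  have h3 : (∑ i ∈ Finset.range (d + 1), (wt d i * ‖z‖ ^ i) ^ 2) = (‖z‖ ^ 2 / d + 1) ^ d := by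
    rw [add_pow]
    refine Finset.sum_congr rfl (fun i _ => ?_)
    rw [mul_pow, est_wt_sq, div_pow, one_pow]
    ring
  have h4 : (‖z‖ ^ 2 / d + 1) ^ d ≤ Real.exp (‖z‖ ^ 2) := by
    have h5 : ‖z‖ ^ 2 / d + 1 ≤ Real.exp (‖z‖ ^ 2 / d) := Real.add_one_le_exp _
    have h6 : (‖z‖ ^ 2 / d + 1) ^ d ≤ Real.exp (‖z‖ ^ 2 / d) ^ d :=
      pow_le_pow_left₀ (by positivity) h5 d
    rw [← Real.exp_nat_mul] at h6
    have h7 : (d : ℝ) * (‖z‖ ^ 2 / d) = ‖z‖ ^ 2 := by field_simp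
    rwa [h7] at h6
  rw [h2, h3, Real.exp_half]
  exact mul_le_mul_of_nonneg_left (Real.sqrt_le_sqrt h4) (Real.sqrt_nonneg _)

theorem der_le {d : ℕ} (hd : 1 ≤ d) {T : ℂ[X]} (hT : T.natDegree ≤ d) (z : ℂ) :
    ‖T.derivative.eval z‖ ≤ √(Fk d T) * Real.exp ((‖z‖ + 1) ^ 2 / 2) := by
  have h1 : ‖deriv (fun w : ℂ => T.eval w) z‖ ≤
      √(Fk d T) * Real.exp ((‖z‖ + 1) ^ 2 / 2) / 1 := by
    apply Complex.norm_deriv_le_of_forall_mem_sphere_norm_le one_pos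
    · exact T.differentiable.diffContOnCl
    · intro w hw
      refine (ev_le hd hT w).trans ?_
      apply mul_le_mul_of_nonneg_left _ (Real.sqrt_nonneg _)
      apply Real.exp_le_exp.2
      have h2 : ‖w‖ ≤ ‖z‖ + 1 := by
        have h3 : ‖w - z‖ = 1 := by simpa [dist_eq_norm] using hw
        have h4 : ‖w‖ ≤ ‖z‖ + ‖w - z‖ := by
          have := norm_add_le z (w - z)
          simpa using this
        linarith
      have h5 : ‖w‖ ^ 2 ≤ (‖z‖ + 1) ^ 2 := pow_le_pow_left₀ (norm_nonneg _) h2 2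
      linarith
  rw [div_one, Polynomial.deriv] at h1
  exact h1

end H73.PT
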