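import Pool.Agent.H73.PT.Upp
import Pool.Agent.H84.PT.Def

/-!
# `shift_rate`: the upper bound in the form of `Pool.Agent.H84.PT`
-/

set_option autoImplicit false

namespace H73.PT

open Polynomial Pool.Agent.H84.PT
open Pool.Agent.H85.LD (Nd)

theorem shift_rate : ∃ C : ℝ, ∀ d : ℕ, 2 ≤ d → ShiftApp d (C * Real.log d ^ 2 / d) := by
  obtain ⟨C, _, h⟩ := upper
  refine ⟨C, fun d hd P hP => ?_⟩
  obtain ⟨P', h1, h2, h3⟩ := h d hd P hP
  refine ⟨P', h1, h2, ?_⟩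
  calc Nd d (P - P') ≤ C * (Real.log d ^ 2 / d) * (Nd d P + 1) := h3
    _ = C * Real.log d ^ 2 / d * (1 + Nd d P) := by ring

end H73.PT
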