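import Pool.Agent.H73.PT.Jac
import Pool.Agent.H73.PT.Crt

/-!
# [H73 PT INA] the inner critical points: fixed `y`

`Ψ x = T y + cx x q y^m + y - VV x`, `x ≠ 0`. `der_cx` (with `deriv` of `VV.eval`): `Ψ' x = cx' x q (y^m - x^m)`, `‖y^m - x^m‖ ≥ ‖y‖^m - r^m ≥ ‖y‖^m/2 ≥ (2r)^m/2`
(`‖x‖ ≤ r ≤ ‖y‖/2`, `m ≥ 1`). So `‖cx' x‖² ≤ 4 ‖Ψ' x‖²/(q (2r)^m)²`. `mult_le` with `F = Ψ`, `U = {x ≠ 0}`, `S = {x | x ≠ 0, ‖x‖ ≤ r, ‖Ψ x‖ ≤ H}` (measurable: relatively closed
in `U`), `N = d + m`: `Ψ x = w` means `m q x^(m-1) (T y + y - w - VV x) - T'(x) q y^m = 0`, a polynomial in `x` of degree `≤ d + m`; it is not zero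
if some `x` has `Ψ' x ≠ 0` (otherwise `Ψ` is constant on `U`).
-/

set_option autoImplicit false

namespace H73.PT

open MeasureTheory Polynomial

/-- the function `x ↦ Ψ x` for fixed `y` -/
noncomputable def Ps (T : ℂ[X]) (m : ℕ) (q : ℝ) (y x : ℂ) : ℂ :=
  T.eval y + cx T m q x * q * y ^ m + (y - (VV T m).eval x)

theorem inA_der {m : ℕ} {T : ℂ[X]} (hm : 2 ≤ m) {q : ℝ} (hq : 0 < q) (y : ℂ) {x : ℂ} (hx : x ≠ 0) :
    HasDerivAt (Ps T m q y) (deriv (cx T m q) x * (q * (y ^ m - x ^ m))) x := by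
  have hne : {x : ℂ | x ≠ 0} ∈ nhds x := isOpen_ne.mem_nhds hx
  have h1 : HasDerivAt (cx T m q) (deriv (cx T m q) x) x :=
    ((cx_diff hm hq).differentiableAt hne).hasDerivAt
  have h2 := (((h1.mul_const (q : ℂ)).mul_const (y ^ m)).const_add (T.eval y)).add
    (((VV T m).hasDerivAt x).const_sub y)
  refine h2.congr_deriv ?_
  rw [der_cx hm hq hx]
  ring

theorem inA_card {d m : ℕ} {T : ℂ[X]} (hT : T.natDegree ≤ d) (hm : 2 ≤ m) {q : ℝ} (hq : 0 < q)
    (y : ℂ) (S : Set ℂ) (hS : ∀ x ∈ S, x ≠ 0) (w : ℂ) :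
    {x : ℂ | x ∈ S ∧ Ps T m q y x = w ∧ deriv (Ps T m q y) x ≠ 0}.encard ≤ (d + m : ℕ) := by
  set P : ℂ[X] := C ((m : ℂ) * q) * X ^ (m - 1) * (C (T.eval y + y - w) - VV T m) -
    C ((q : ℂ) * y ^ m) * derivative T with hP
  have hPe : ∀ x : ℂ, x ≠ 0 → P.eval x = (m : ℂ) * q * x ^ (m - 1) * (Ps T m q y x - w) := by
    intro x hx
    have h6 := cx_mul (T := T) hm hq hx
    rw [hP]
    unfold Ps
    simp only [eval_sub, eval_mul, eval_C, eval_pow, eval_X]
    linear_combination (-(q * y ^ m)) * h6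
  have hm0 : (m : ℂ) ≠ 0 := by exact_mod_cast (by omega : m ≠ 0)
  have hq0 : (q : ℂ) ≠ 0 := by exact_mod_cast hq.ne'
  by_cases hV : P = 0
  · have : {x : ℂ | x ∈ S ∧ Ps T m q y x = w ∧ deriv (Ps T m q y) x ≠ 0} = ∅ := by
      ext x
      simp only [Set.mem_ofPred_eq, Set.mem_empty_iff_false, iff_false, not_and, not_not]
      intro hxS _
      have hx := hS x hxS
      have hne : {x : ℂ | x ≠ 0} ∈ nhds x := isOpen_ne.mem_nhds hx
      have h1 : Ps T m q y =ᶠ[nhds x] fun _ => w := by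
        filter_upwards [hne] with z hz
        have hz' : z ≠ 0 := hz
        have h2 := hPe z hz'
        rw [hV, eval_zero] at h2
        have h3 : (m : ℂ) * q * z ^ (m - 1) ≠ 0 :=
          mul_ne_zero (mul_ne_zero hm0 hq0) (pow_ne_zero _ hz')
        rcases mul_eq_zero.1 h2.symm with h4 | h4
        · exact absurd h4 h3
        · exact sub_eq_zero.1 h4
      rw [h1.deriv_eq, deriv_const]
    rw [this, Set.encard_empty]
    exact bot_le
  · have h1 : {x : ℂ | x ∈ S ∧ Ps T m q y x = w ∧ deriv (Ps T m q y) x ≠ 0} ⊆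
        (P.roots.toFinset : Set ℂ) := by
      intro x hx
      simp only [Finset.mem_coe, Multiset.mem_toFinset, mem_roots hV, IsRoot.def]
      rw [hPe x (hS x hx.1), hx.2.1, sub_self, mul_zero]
    have hVV : (VV T m).natDegree ≤ d := by
      unfold VV
      refine (natDegree_sub_le _ _).trans (max_le hT ?_)
      refine (natDegree_C_mul_le _ _).trans ?_
      by_cases h0 : T.natDegree = 0
      · rw [natDegree_eq_zero.1 h0 |>.choose_spec.symm]
        simp
      · refine (natDegree_mul_le).trans ?_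
        rw [natDegree_X]
        have := natDegree_derivative_lt h0
        omega
    have h2 : P.natDegree ≤ d + m := by
      rw [hP]
      refine (natDegree_sub_le _ _).trans (max_le ?_ ?_)
      · refine natDegree_mul_le.trans ?_
        have e1 : (C ((m : ℂ) * q) * X ^ (m - 1) : ℂ[X]).natDegree ≤ m - 1 :=
          (natDegree_C_mul_le _ _).trans (natDegree_X_pow_le _)
        have e2 : (C (T.eval y + y - w) - VV T m).natDegree ≤ d := by
          refine (natDegree_sub_le _ _).trans (max_le ?_ hVV)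
          rw [natDegree_C]; exact Nat.zero_le _
        omega
      · refine (natDegree_C_mul_le _ _).trans ?_
        have := natDegree_derivative_le T
        omega
    calc _ ≤ (P.roots.toFinset : Set ℂ).encard := Set.encard_le_encard h1
      _ = ((P.roots.toFinset.card : ℕ) : ℕ∞) := Set.encard_coe_eq_coe_finsetCard _
      _ ≤ (d + m : ℕ) := by
          exact_mod_cast (Multiset.toFinset_card_le _).trans ((card_roots' _).trans h2)

theorem cx_meas (T : ℂ[X]) (m : ℕ) (q : ℝ) : Measurable (cx T m q) := by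
  unfold cx
  exact ((Polynomial.continuous _).measurable.neg).div
    ((measurable_id.pow_const _).const_mul _)

theorem inA {d m : ℕ} {T : ℂ[X]} (hT : T.natDegree ≤ d) (hm : 2 ≤ m) {q r H : ℝ} (hq : 0 < q)
    (hr : 0 < r) (hH : 0 ≤ H) (y : ℂ) (hy : 2 * r ≤ ‖y‖) :
    ∫⁻ x in {x : ℂ | x ≠ 0 ∧ ‖x‖ ≤ r ∧ ‖T.eval y + cx T m q x * q * y ^ m + (y - (VV T m).eval x)‖ ≤ H},
      ENNReal.ofReal (‖deriv (cx T m q) x‖ ^ 2) ≤
      ENNReal.ofReal (4 * (d + m) * Real.pi * H ^ 2 / (q * (2 * r) ^ m) ^ 2) := by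
  set S : Set ℂ := {x : ℂ | x ≠ 0 ∧ ‖x‖ ≤ r ∧ ‖Ps T m q y x‖ ≤ H} with hS
  change ∫⁻ x in S, ENNReal.ofReal (‖deriv (cx T m q) x‖ ^ 2) ≤ _
  have hmeas : Measurable (Ps T m q y) := by
    unfold Ps
    exact (((cx_meas T m q).mul_const _).mul_const _ |>.const_add _).add
      ((Polynomial.continuous _).measurable.const_sub _)
  have hSm : MeasurableSet S := by
    rw [hS]
    refine (measurableSet_singleton (0 : ℂ)).compl.inter ?_
    exact (measurableSet_le measurable_norm measurable_const).inter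
      (measurableSet_le hmeas.norm measurable_const)
  have hU : IsOpen {x : ℂ | x ≠ 0} := isOpen_ne
  have hd : DifferentiableOn ℂ (Ps T m q y) {x : ℂ | x ≠ 0} := fun x hx =>
    (inA_der hm hq y hx).differentiableAt.differentiableWithinAt
  have hml := mult_le (N := d + m) hH hU hSm (fun x hx => hx.1) hd
    (fun w => inA_card hT hm hq y S (fun x hx => hx.1) w) (fun x hx => hx.2.2)
  have hA : 0 < q * (2 * r) ^ m := by positivity
  have hpt : ∀ x ∈ S, ENNReal.ofReal (‖deriv (cx T m q) x‖ ^ 2) ≤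
      ENNReal.ofReal (4 / (q * (2 * r) ^ m) ^ 2) * ENNReal.ofReal (‖deriv (Ps T m q y) x‖ ^ 2) := by
    intro x hx
    rw [← ENNReal.ofReal_mul (by positivity)]
    apply ENNReal.ofReal_le_ofReal
    rw [(inA_der hm hq y hx.1).deriv]
    have h1 : (2 * r) ^ m / 2 ≤ ‖y ^ m - x ^ m‖ := by
      have e1 : (2 * r) ^ m ≤ ‖y‖ ^ m := pow_le_pow_left₀ (by positivity) hy m
      have e2 : ‖x‖ ^ m ≤ r ^ m := pow_le_pow_left₀ (norm_nonneg _) hx.2.1 m
      have e3 : r ^ m ≤ (2 * r) ^ m / 2 := by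
        rw [mul_pow]
        have : (2 : ℝ) ≤ 2 ^ m := by
          calc (2 : ℝ) = 2 ^ 1 := (pow_one 2).symm
            _ ≤ 2 ^ m := pow_le_pow_right₀ (by norm_num) (by omega)
        have h0 : 0 ≤ r ^ m := by positivity
        nlinarith
      have e4 := norm_sub_norm_le (y ^ m) (x ^ m)
      rw [norm_pow, norm_pow] at e4
      linarith
    rw [norm_mul, norm_mul, Complex.norm_real, Real.norm_of_nonneg hq.le]
    have h2 : q * (2 * r) ^ m / 2 ≤ q * ‖y ^ m - x ^ m‖ := by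
      have := mul_le_mul_of_nonneg_left h1 hq.le
      linarith
    have h3 : 0 ≤ ‖deriv (cx T m q) x‖ := norm_nonneg _
    have h4 : (q * (2 * r) ^ m / 2) ^ 2 ≤ (q * ‖y ^ m - x ^ m‖) ^ 2 :=
      pow_le_pow_left₀ (by positivity) h2 2
    rw [div_mul_eq_mul_div, le_div_iff₀ (by positivity)]
    have h5 : 0 ≤ ‖deriv (cx T m q) x‖ ^ 2 := by positivity
    have h6 := mul_le_mul_of_nonneg_left h4 h5
    nlinarith
  calc ∫⁻ x in S, ENNReal.ofReal (‖deriv (cx T m q) x‖ ^ 2)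
      ≤ ∫⁻ x in S, ENNReal.ofReal (4 / (q * (2 * r) ^ m) ^ 2) *
          ENNReal.ofReal (‖deriv (Ps T m q y) x‖ ^ 2) := setLIntegral_mono' hSm hpt
    _ = ENNReal.ofReal (4 / (q * (2 * r) ^ m) ^ 2) *
          ∫⁻ x in S, ENNReal.ofReal (‖deriv (Ps T m q y) x‖ ^ 2) :=
        lintegral_const_mul' _ _ ENNReal.ofReal_ne_top
    _ ≤ ENNReal.ofReal (4 / (q * (2 * r) ^ m) ^ 2) *
          ENNReal.ofReal (((d + m : ℕ) : ℝ) * Real.pi * H ^ 2) := by gcongr
    _ = ENNReal.ofReal (4 * (d + m) * Real.pi * H ^ 2 / (q * (2 * r) ^ m) ^ 2) := by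
        rw [← ENNReal.ofReal_mul (by positivity)]
        congr 1
        push_cast
        ring

end H73.PT
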