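import Pool.Agent.H73.PT.Def

/-!
# [H73 PT JAC] the area formula with multiplicities

`img_le`: `MeasureTheory.addHaar_image_le_lintegral_abs_det_fderiv` (the determinant of multiplication by `a` on `ℂ = ℝ²` is `‖a‖²`; see `image_le` in
`Pool/Agent/H91/CS/TIMG.lean`).
`mult_le`: we may replace `S` by `S' = {x ∈ S | deriv F x ≠ 0}` (the integrand vanishes elsewhere; `deriv F` is continuous on `U`, so `S'` is
measurable). Every `x ∈ S'` has an open ball in `U` on which `F` is injective (strict derivative: `HasStrictDerivAt`,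
`HasStrictFDerivAt.toOpenPartialHomeomorph` or `DifferentiableOn.analyticAt ... eventually_injOn`), so there are countably many open balls `B_i`
(`TopologicalSpace.countable_cover_nhdsWithin`/Lindelöf) covering `S'`, `F` injective on each; the sets `S_i = S' ∩ disjointed B i` are measurable,
disjoint, cover `S'`. `∫_{S_i} ‖F'‖² = vol (F '' S_i)` (`lintegral_abs_det_fderiv_eq_addHaar_image`), `F '' S_i` is measurable
(`MeasurableSet.image_of_continuousOn_injOn`) and `∑_i 1_{F '' S_i}(w) ≤ N` for every `w` (different `i` give different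
preimages in `S'`), `= 0` for `‖w‖ > H`. So `∫_{S'} ‖F'‖² = ∑_i vol (F '' S_i) = ∫ ∑_i 1_{F '' S_i} ≤ N vol (closedBall 0 H) = N π H²`
(`lintegral_tsum`, `Complex.volume_closedBall`).
-/

set_option autoImplicit false

namespace H73.PT

open MeasureTheory Set

theorem abs_det_smulRight_jac (c : ℂ) :
    |((ContinuousLinearMap.smulRight (1 : ℂ →L[ℂ] ℂ) c).restrictScalars ℝ).det| = ‖c‖ ^ 2 := by
  have h1 : ((ContinuousLinearMap.smulRight (1 : ℂ →L[ℂ] ℂ) c).restrictScalars ℝ).det =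
      LinearMap.det (((ContinuousLinearMap.smulRight (1 : ℂ →L[ℂ] ℂ) c : ℂ →L[ℂ] ℂ) :
        ℂ →ₗ[ℂ] ℂ).restrictScalars ℝ) := rfl
  rw [h1, LinearMap.det_restrictScalars, Algebra.norm_complex_eq]
  show |Complex.normSq _| = _
  rw [Complex.normSq_eq_norm_sq, abs_of_nonneg (by positivity)]
  congr 2
  simp

theorem hasFDeriv_jac {U S : Set ℂ} (hU : IsOpen U) (hSU : S ⊆ U) {F : ℂ → ℂ}
    (hF : DifferentiableOn ℂ F U) : ∀ z ∈ S, HasFDerivWithinAt F
      ((ContinuousLinearMap.smulRight (1 : ℂ →L[ℂ] ℂ) (deriv F z)).restrictScalars ℝ) S z := by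
  intro z hz
  have h1 : HasDerivAt F (deriv F z) z :=
    ((hF z (hSU hz)).differentiableAt (hU.mem_nhds (hSU hz))).hasDerivAt
  exact (h1.hasFDerivAt.restrictScalars ℝ).hasFDerivWithinAt

theorem img_le {U S : Set ℂ} (hU : IsOpen U) (hS : MeasurableSet S) (hSU : S ⊆ U) {F : ℂ → ℂ}
    (hF : DifferentiableOn ℂ F U) : volume (F '' S) ≤ ∫⁻ x in S, ENNReal.ofReal (‖deriv F x‖ ^ 2) := by
  refine (addHaar_image_le_lintegral_abs_det_fderiv volume hS (hasFDeriv_jac hU hSU hF)).trans ?_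
  refine le_of_eq (setLIntegral_congr_fun hS ?_)
  intro z _
  beta_reduce
  rw [abs_det_smulRight_jac]

theorem inj_cover_jac {U S : Set ℂ} (hU : IsOpen U) (hS : MeasurableSet S) (hSU : S ⊆ U)
    {F : ℂ → ℂ} (hF : DifferentiableOn ℂ F U) (h0 : ∀ x ∈ S, deriv F x ≠ 0) :
    ∃ A : ℕ → Set ℂ, (∀ k, MeasurableSet (A k)) ∧
    Pairwise (fun i j => Disjoint (A i) (A j)) ∧ (∀ k, InjOn F (A k)) ∧ ⋃ k, A k = S := by
  have hloc : ∀ z ∈ S, ∃ V : Set ℂ, IsOpen V ∧ z ∈ V ∧ InjOn F V := by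
    intro z hz
    have h2 : HasStrictDerivAt F (deriv F z) z :=
      (hF.analyticAt (hU.mem_nhds (hSU hz))).hasStrictDerivAt
    have h1 := h2.hasStrictFDerivAt_equiv (h0 z hz)
    exact ⟨(h1.toOpenPartialHomeomorph F).source, (h1.toOpenPartialHomeomorph F).open_source,
      h1.mem_toOpenPartialHomeomorph_source, (h1.toOpenPartialHomeomorph F).injOn⟩
  choose! V hV using hloc
  obtain ⟨t, htU, htc, hcov⟩ := TopologicalSpace.countable_cover_nhdsWithin (f := V) (s := S)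
    (fun x hx => mem_nhdsWithin_of_mem_nhds ((hV x hx).1.mem_nhds (hV x hx).2.1))
  rcases t.eq_empty_or_nonempty with rfl | hne
  · refine ⟨fun _ => ∅, fun _ => MeasurableSet.empty, fun i j _ => disjoint_bot_left,
      fun _ => injOn_empty _, ?_⟩
    rw [iUnion_empty]
    symm
    rw [← subset_empty_iff]
    refine hcov.trans ?_
    simp
  · obtain ⟨e, he⟩ := htc.exists_eq_range hne
    have hem : ∀ k, e k ∈ S := by
      intro k
      apply htU
      rw [he]
      exact mem_range_self k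
    refine ⟨disjointed (fun j => V (e j) ∩ S), ?_, ?_, ?_, ?_⟩
    · exact MeasurableSet.disjointed (fun j => (hV _ (hem j)).1.measurableSet.inter hS)
    · exact disjoint_disjointed _
    · intro k
      refine InjOn.mono ?_ (hV _ (hem k)).2.2
      exact (disjointed_subset _ k).trans inter_subset_left
    · rw [iUnion_disjointed, ← iUnion_inter]
      apply inter_eq_self_of_subset_right
      intro x hx
      obtain ⟨y, hy, hxy⟩ := mem_iUnion₂.1 (hcov hx)
      rw [he] at hy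
      obtain ⟨k, rfl⟩ := hy
      exact mem_iUnion.2 ⟨k, hxy⟩

theorem pointwise_jac {N : ℕ} {H : ℝ} {S : Set ℂ} {F : ℂ → ℂ}
    (hN : ∀ w : ℂ, {x : ℂ | x ∈ S ∧ F x = w}.encard ≤ N) (hb : ∀ x ∈ S, ‖F x‖ ≤ H)
    {A : ℕ → Set ℂ} (hdis : Pairwise (fun i j => Disjoint (A i) (A j))) (hA : ∀ i, A i ⊆ S) (w : ℂ) :
    ∑' i, (F '' A i).indicator (1 : ℂ → ENNReal) w ≤
      (Metric.closedBall (0 : ℂ) H).indicator (fun _ => (N : ENNReal)) w := by
  classical
  by_cases hw : w ∈ Metric.closedBall (0 : ℂ) H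
  · rw [indicator_of_mem hw, ENNReal.tsum_eq_iSup_sum]
    refine iSup_le fun s => ?_
    have h1 : ∀ i, w ∈ F '' A i → ∃ x, x ∈ A i ∧ F x = w := fun i hi => hi
    choose! g hg using h1
    let t := s.filter fun i => w ∈ F '' A i
    have h2 : ∑ i ∈ s, (F '' A i).indicator (1 : ℂ → ENNReal) w = (t.card : ENNReal) := by
      rw [Finset.card_filter, Nat.cast_sum]
      refine Finset.sum_congr rfl fun i _ => ?_
      by_cases hi : w ∈ F '' A i
      · rw [indicator_of_mem hi, if_pos hi, Pi.one_apply, Nat.cast_one]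
      · rw [indicator_of_notMem hi, if_neg hi, Nat.cast_zero]
    rw [h2]
    have h3 : InjOn g (t : Set ℕ) := by
      intro i hi j hj hij
      by_contra hne
      have hi' := hg i (Finset.mem_filter.1 hi).2
      have hj' := hg j (Finset.mem_filter.1 hj).2
      rw [hij] at hi'
      exact Set.disjoint_left.1 (hdis hne) hi'.1 hj'.1
    have h4 : ((t.image g : Finset ℂ) : Set ℂ) ⊆ {x : ℂ | x ∈ S ∧ F x = w} := by
      intro x hx
      rw [Finset.mem_coe, Finset.mem_image] at hx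
      obtain ⟨i, hi, rfl⟩ := hx
      have hi' := hg i (Finset.mem_filter.1 hi).2
      exact ⟨hA i hi'.1, hi'.2⟩
    have h5 : ((t.card : ℕ) : ℕ∞) ≤ N := by
      rw [← Finset.card_image_of_injOn h3, ← Set.encard_coe_eq_coe_finsetCard]
      exact (Set.encard_le_encard h4).trans (hN w)
    exact_mod_cast h5
  · rw [indicator_of_notMem hw]
    refine le_of_eq (ENNReal.tsum_eq_zero.2 fun i => indicator_of_notMem ?_ _)
    rintro ⟨x, hx, rfl⟩
    exact hw (by rw [mem_closedBall_zero_iff]; exact hb x (hA i hx))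

theorem mult_le_aux {N : ℕ} {H : ℝ} (hH : 0 ≤ H) {U S : Set ℂ} (hU : IsOpen U) (hS : MeasurableSet S)
    (hSU : S ⊆ U) {F : ℂ → ℂ} (hF : DifferentiableOn ℂ F U) (h0 : ∀ x ∈ S, deriv F x ≠ 0)
    (hN : ∀ w : ℂ, {x : ℂ | x ∈ S ∧ F x = w}.encard ≤ N) (hb : ∀ x ∈ S, ‖F x‖ ≤ H) :
    ∫⁻ x in S, ENNReal.ofReal (‖deriv F x‖ ^ 2) ≤ ENNReal.ofReal (N * Real.pi * H ^ 2) := by
  obtain ⟨A, hA, hdis, hinj, hcov⟩ := inj_cover_jac hU hS hSU hF h0
  have hAS : ∀ i, A i ⊆ S := fun i => hcov ▸ subset_iUnion A i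
  have hFc : ContinuousOn F U := hF.continuousOn
  have hm : ∀ i, MeasurableSet (F '' A i) := fun i =>
    (hA i).image_of_continuousOn_injOn (hFc.mono ((hAS i).trans hSU)) (hinj i)
  have h1 : ∀ i, ∫⁻ x in A i, ENNReal.ofReal (‖deriv F x‖ ^ 2) =
      ∫⁻ w, (F '' A i).indicator (1 : ℂ → ENNReal) w := by
    intro i
    rw [lintegral_indicator_one (hm i), ← lintegral_abs_det_fderiv_eq_addHaar_image volume (hA i)
      (hasFDeriv_jac hU ((hAS i).trans hSU) hF) (hinj i)]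
    refine setLIntegral_congr_fun (hA i) ?_
    intro z _
    beta_reduce
    rw [abs_det_smulRight_jac]
  have h2 : ∫⁻ x in S, ENNReal.ofReal (‖deriv F x‖ ^ 2) =
      ∑' i, ∫⁻ x in A i, ENNReal.ofReal (‖deriv F x‖ ^ 2) := by
    rw [← hcov]
    exact lintegral_iUnion hA hdis _
  rw [h2, tsum_congr h1, ← lintegral_tsum fun i =>
    (measurable_one.indicator (hm i)).aemeasurable]
  refine (lintegral_mono (pointwise_jac hN hb hdis hAS)).trans ?_
  rw [lintegral_indicator_const Metric.isClosed_closedBall.measurableSet, Complex.volume_closedBall]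
  refine le_of_eq ?_
  rw [mul_assoc (N : ℝ), ENNReal.ofReal_mul (Nat.cast_nonneg N), ENNReal.ofReal_natCast,
    ENNReal.ofReal_mul Real.pi_pos.le, ENNReal.ofReal_pow hH]
  congr 1
  rw [mul_comm]
  congr 1
  rw [← NNReal.coe_real_pi, ENNReal.ofReal_coe_nnreal]

theorem mult_le {N : ℕ} {H : ℝ} (hH : 0 ≤ H) {U S : Set ℂ} (hU : IsOpen U) (hS : MeasurableSet S) (hSU : S ⊆ U)
    {F : ℂ → ℂ} (hF : DifferentiableOn ℂ F U)
    (hN : ∀ w : ℂ, {x : ℂ | x ∈ S ∧ F x = w ∧ deriv F x ≠ 0}.encard ≤ N) (hb : ∀ x ∈ S, ‖F x‖ ≤ H) :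
    ∫⁻ x in S, ENNReal.ofReal (‖deriv F x‖ ^ 2) ≤ ENNReal.ofReal (N * Real.pi * H ^ 2) := by
  have hW : IsOpen (U ∩ deriv F ⁻¹' {0}ᶜ) :=
    (hF.deriv hU).continuousOn.isOpen_inter_preimage hU isOpen_compl_singleton
  have hS' : MeasurableSet (S ∩ (U ∩ deriv F ⁻¹' {0}ᶜ)) := hS.inter hW.measurableSet
  have h1 : ∫⁻ x in S, ENNReal.ofReal (‖deriv F x‖ ^ 2) =
      ∫⁻ x in S ∩ (U ∩ deriv F ⁻¹' {0}ᶜ), ENNReal.ofReal (‖deriv F x‖ ^ 2) := by
    have h2 : ∫⁻ x in S, ENNReal.ofReal (‖deriv F x‖ ^ 2) =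
        ∫⁻ x in S, (U ∩ deriv F ⁻¹' {0}ᶜ).indicator
          (fun x => ENNReal.ofReal (‖deriv F x‖ ^ 2)) x := by
      refine setLIntegral_congr_fun hS ?_
      intro x hx
      beta_reduce
      by_cases h3 : x ∈ U ∩ deriv F ⁻¹' {0}ᶜ
      · rw [indicator_of_mem h3]
      · rw [indicator_of_notMem h3]
        have h4 : deriv F x = 0 := by
          by_contra h5
          exact h3 ⟨hSU hx, h5⟩
        rw [h4]
        simp
    rw [h2, lintegral_indicator hW.measurableSet, Measure.restrict_restrict hW.measurableSet,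
      inter_comm]
  rw [h1]
  refine mult_le_aux hH hU hS' (fun x hx => hx.2.1) hF (fun x hx => hx.2.2) (fun w => ?_)
    (fun x hx => hb x hx.1)
  refine (Set.encard_le_encard ?_).trans (hN w)
  rintro x ⟨hx, hw⟩
  exact ⟨hx.1, hw, hx.2.2⟩

end H73.PT
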