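import Pool.Agent.H73.PT.Jac
import Pool.Agent.H73.PT.Crt

/-!
# [H73 PT OUT] the outer critical points

`S = {x | r ≤ ‖x‖, ‖VV x‖ ≤ H}` (closed), `U = {x ≠ 0}`. By `crit_cx` the set on the left is contained in `cx '' S` (`x ≠ 0` as `‖x‖ ≥ r > 0`). `img_le` for `cx`, and by `der_cx`
`‖cx' x‖² = ‖VV' x‖²/(q ‖x‖^m)² ≤ ‖VV' x‖²/(q r^m)²`; `mult_le` for `F = VV` (`U = univ`) with `N = d` (`VV_card`; `deriv (fun x => VV.eval x) = VV.derivative.eval`).
-/

set_option autoImplicit false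

namespace H73.PT

open MeasureTheory Polynomial

theorem out_le {d m : ℕ} {T : ℂ[X]} (hT : T.natDegree ≤ d) (hm : 2 ≤ m) {q r H : ℝ} (hq : 0 < q)
    (hr : 0 < r) (hH : 0 ≤ H) :
    volume {c : ℂ | ∃ x : ℂ, r ≤ ‖x‖ ∧ (Tc T m q c).derivative.eval x = 0 ∧ ‖(Tc T m q c).eval x‖ ≤ H} ≤
      ENNReal.ofReal (d * Real.pi * H ^ 2 / (q * r ^ m) ^ 2) := by
  obtain ⟨S, hS⟩ : ∃ S : Set ℂ, S = {x : ℂ | r ≤ ‖x‖ ∧ ‖(VV T m).eval x‖ ≤ H} := ⟨_, rfl⟩
  have hSm : MeasurableSet S := by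
    rw [hS]
    exact ((isClosed_le continuous_const continuous_norm).inter
      (isClosed_le (Polynomial.continuous _).norm continuous_const)).measurableSet
  have hSU : S ⊆ {x : ℂ | x ≠ 0} := by
    intro x hx h0
    rw [hS] at hx
    have h1 := hx.1
    rw [h0, norm_zero] at h1
    linarith
  have hqr : 0 < q * r ^ m := by positivity
  have h1 : {c : ℂ | ∃ x : ℂ, r ≤ ‖x‖ ∧ (Tc T m q c).derivative.eval x = 0 ∧
      ‖(Tc T m q c).eval x‖ ≤ H} ⊆ cx T m q '' S := by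
    rintro c ⟨x, hx1, hx2, hx3⟩
    have hx0 : x ≠ 0 := by
      intro h0
      rw [h0, norm_zero] at hx1
      linarith
    obtain ⟨h2, h3⟩ := crit_cx hm hq hx0 hx2
    refine ⟨x, ?_, h2.symm⟩
    rw [hS]
    rw [h3] at hx3
    exact ⟨hx1, hx3⟩
  have h2 : volume (cx T m q '' S) ≤ ∫⁻ x in S, ENNReal.ofReal (‖deriv (cx T m q) x‖ ^ 2) :=
    img_le isOpen_ne hSm hSU (cx_diff hm hq)
  have hder : ∀ x : ℂ, deriv (fun z : ℂ => (VV T m).eval z) x = (VV T m).derivative.eval x :=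
    fun x => Polynomial.deriv _
  have h3 : ∫⁻ x in S, ENNReal.ofReal (‖deriv (cx T m q) x‖ ^ 2) ≤
      ∫⁻ x in S, ENNReal.ofReal (1 / (q * r ^ m) ^ 2) *
        ENNReal.ofReal (‖deriv (fun z : ℂ => (VV T m).eval z) x‖ ^ 2) := by
    refine setLIntegral_mono_ae' hSm (Filter.Eventually.of_forall fun x hx => ?_)
    have hx0 := hSU hx
    rw [hS] at hx
    rw [← ENNReal.ofReal_mul (by positivity)]
    apply ENNReal.ofReal_le_ofReal
    rw [hder x, der_cx hm hq hx0, norm_mul, norm_mul, norm_pow, Complex.norm_real,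
      Real.norm_eq_abs, abs_of_pos hq]
    have h4 : r ^ m ≤ ‖x‖ ^ m := pow_le_pow_left₀ hr.le hx.1 m
    have h5 : q * r ^ m ≤ q * ‖x‖ ^ m := mul_le_mul_of_nonneg_left h4 hq.le
    rw [div_mul_eq_mul_div, one_mul, le_div_iff₀ (by positivity), ← mul_pow]
    apply pow_le_pow_left₀ (by positivity)
    exact mul_le_mul_of_nonneg_left h5 (norm_nonneg _)
  have h4 : ∫⁻ x in S, ENNReal.ofReal (1 / (q * r ^ m) ^ 2) *
        ENNReal.ofReal (‖deriv (fun z : ℂ => (VV T m).eval z) x‖ ^ 2) =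
      ENNReal.ofReal (1 / (q * r ^ m) ^ 2) *
        ∫⁻ x in S, ENNReal.ofReal (‖deriv (fun z : ℂ => (VV T m).eval z) x‖ ^ 2) :=
    lintegral_const_mul' _ _ ENNReal.ofReal_ne_top
  have h5 : ∫⁻ x in S, ENNReal.ofReal (‖deriv (fun z : ℂ => (VV T m).eval z) x‖ ^ 2) ≤
      ENNReal.ofReal (d * Real.pi * H ^ 2) := by
    refine mult_le hH isOpen_univ hSm (Set.subset_univ _)
      ((Polynomial.differentiable _).differentiableOn) ?_ ?_
    · intro w
      refine (Set.encard_le_encard ?_).trans (VV_card (m := m) hT w)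
      rintro x ⟨_, hx2, hx3⟩
      rw [hder x] at hx3
      exact ⟨hx2, hx3⟩
    · intro x hx
      rw [hS] at hx
      exact hx.2
  calc volume {c : ℂ | ∃ x : ℂ, r ≤ ‖x‖ ∧ (Tc T m q c).derivative.eval x = 0 ∧
      ‖(Tc T m q c).eval x‖ ≤ H}
      ≤ volume (cx T m q '' S) := measure_mono h1
    _ ≤ _ := h2
    _ ≤ _ := h3
    _ = _ := h4
    _ ≤ ENNReal.ofReal (1 / (q * r ^ m) ^ 2) * ENNReal.ofReal (d * Real.pi * H ^ 2) :=
        mul_le_mul_right h5 _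
    _ = _ := by
        rw [← ENNReal.ofReal_mul (by positivity)]
        congr 1
        ring

end H73.PT
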