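import Pool.Agent.H73.PT.Est
import Pool.Agent.H84.BR.Def
import Pool.Agent.H85.LD.ADefs

/-!
# [H73 PT SCL] scaling

`up d P = √d P(s/√d)`, `dn d T = T(√d z)/√d`, inverse to each other (`Polynomial.comp` with `C a * X`, `comp_C_mul_X_coeff`). `(up d P).coeff k = √d p_k d^(-k/2)`, so `Fk d (up d P) = ∑ d ‖p_k‖² d^(-k) d^k/binom = d Nd d P`.
`esc_dn`: `(dn d T)^[k] (x/√d) = T^[k] (x)/√d` (induction), the critical points of `dn d T` are `x/√d`, `x` critical for `T`.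
-/

set_option autoImplicit false

namespace H73.PT

open Polynomial Pool.Agent.H44.Fatou Pool.Agent.H32.BT
open Pool.Agent.H85.LD (Nd)

/-- `√d P(s/√d)` -/
noncomputable def up (d : ℕ) (P : ℂ[X]) : ℂ[X] := C ((√d : ℝ) : ℂ) * P.comp (C (((√d : ℝ) : ℂ)⁻¹) * X)

/-- `T(√d z)/√d` -/
noncomputable def dn (d : ℕ) (T : ℂ[X]) : ℂ[X] := C (((√d : ℝ) : ℂ)⁻¹) * T.comp (C ((√d : ℝ) : ℂ) * X)

theorem coeff_up (d : ℕ) (P : ℂ[X]) (n : ℕ) :
    (up d P).coeff n = ((√d : ℝ) : ℂ) * (P.coeff n * (((√d : ℝ) : ℂ)⁻¹) ^ n) := by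
  rw [up, coeff_C_mul, comp_C_mul_X_coeff]

theorem coeff_dn (d : ℕ) (T : ℂ[X]) (n : ℕ) :
    (dn d T).coeff n = ((√d : ℝ) : ℂ)⁻¹ * (T.coeff n * (((√d : ℝ) : ℂ)) ^ n) := by
  rw [dn, coeff_C_mul, comp_C_mul_X_coeff]

theorem sqd_pos {d : ℕ} (hd : 1 ≤ d) : (0 : ℝ) < √d := by
  apply Real.sqrt_pos.mpr
  exact_mod_cast hd

theorem sqd_ne {d : ℕ} (hd : 1 ≤ d) : ((√d : ℝ) : ℂ) ≠ 0 := by
  exact_mod_cast (sqd_pos hd).ne'

theorem dn_up {d : ℕ} (hd : 1 ≤ d) (P : ℂ[X]) : dn d (up d P) = P := by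
  ext n
  rw [coeff_dn, coeff_up]
  have h := sqd_ne hd
  generalize ((√d : ℝ) : ℂ) = s at h
  rw [inv_pow]
  field_simp

theorem up_dn {d : ℕ} (hd : 1 ≤ d) (T : ℂ[X]) : up d (dn d T) = T := by
  ext n
  rw [coeff_up, coeff_dn]
  have h := sqd_ne hd
  generalize ((√d : ℝ) : ℂ) = s at h
  rw [inv_pow]
  field_simp

theorem dn_sub {d : ℕ} (S T : ℂ[X]) : dn d (S - T) = dn d S - dn d T := by
  simp only [dn, sub_comp, mul_sub]

theorem deg_up {d : ℕ} (hd : 1 ≤ d) (P : ℂ[X]) : (up d P).natDegree = P.natDegree := by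
  have h := sqd_ne hd
  rw [up, natDegree_C_mul h, natDegree_comp, natDegree_C_mul_X _ (inv_ne_zero h), mul_one]

theorem deg_dn {d : ℕ} (hd : 1 ≤ d) (T : ℂ[X]) : (dn d T).natDegree = T.natDegree := by
  have h := sqd_ne hd
  rw [dn, natDegree_C_mul (inv_ne_zero h), natDegree_comp, natDegree_C_mul_X _ h, mul_one]

theorem Fk_up {d : ℕ} (hd : 1 ≤ d) (P : ℂ[X]) : Fk d (up d P) = d * Nd d P := by
  have hd0 : (0 : ℝ) < d := by exact_mod_cast hd
  rw [Fk, Nd, Finset.mul_sum]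
  apply Finset.sum_congr rfl
  intro k hk
  have hk' : k ≤ d := Nat.lt_succ_iff.mp (Finset.mem_range.mp hk)
  have hb : (0 : ℝ) < (d.choose k : ℝ) := by exact_mod_cast Nat.choose_pos hk'
  have hw : wt d k ^ 2 = (d.choose k : ℝ) / (d : ℝ) ^ k := Real.sq_sqrt (by positivity)
  have hs : (√(d : ℝ)) ^ 2 = d := Real.sq_sqrt hd0.le
  have hn : ‖(up d P).coeff k‖ ^ 2 = d * (‖P.coeff k‖ ^ 2 * ((d : ℝ) ^ k)⁻¹) := by
    rw [coeff_up, norm_mul, norm_mul, norm_pow, norm_inv, Complex.norm_real,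
      Real.norm_of_nonneg (sqd_pos hd).le, mul_pow, mul_pow, hs, inv_pow, inv_pow, ← pow_mul,
      mul_comm k 2, pow_mul, hs]
  rw [hn, hw]
  field_simp

theorem Nd_dn {d : ℕ} (hd : 1 ≤ d) (T : ℂ[X]) : d * Nd d (dn d T) = Fk d T := by
  rw [← Fk_up hd, up_dn hd]

theorem eval_dn (d : ℕ) (T : ℂ[X]) (z : ℂ) :
    (dn d T).eval z = ((√d : ℝ) : ℂ)⁻¹ * T.eval (((√d : ℝ) : ℂ) * z) := by
  simp [dn, eval_comp]

theorem esc_dn {d : ℕ} (hd : 1 ≤ d) {T : ℂ[X]} (h : AllEsc T) : AllEsc (dn d T) := by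
  intro x hx
  have hs := sqd_ne hd
  have hp := sqd_pos hd
  have hx' : T.derivative.eval (((√d : ℝ) : ℂ) * x) = 0 := by
    have h1 : (dn d T).derivative.eval x = T.derivative.eval (((√d : ℝ) : ℂ) * x) := by
      simp only [dn, derivative_C_mul, derivative_comp, derivative_X, eval_mul, eval_C, eval_comp,
        eval_X, mul_one]
      rw [← mul_assoc, inv_mul_cancel₀ hs, one_mul]
    rw [← h1, hx]
  have hesc := h _ hx'
  have hit : ∀ k : ℕ, (fun z : ℂ => (dn d T).eval z)^[k] x =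
      ((√d : ℝ) : ℂ)⁻¹ * (fun z : ℂ => T.eval z)^[k] (((√d : ℝ) : ℂ) * x) := by
    intro k
    induction k with
    | zero => simp only [Function.iterate_zero, id]; rw [← mul_assoc, inv_mul_cancel₀ hs, one_mul]
    | succ k ih =>
      rw [Function.iterate_succ_apply', Function.iterate_succ_apply', ih]
      show (dn d T).eval _ = _
      rw [eval_dn, ← mul_assoc, mul_inv_cancel₀ hs, one_mul]
  unfold Esc at hesc ⊢
  have h2 := hesc.const_mul_atTop (inv_pos.mpr hp)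
  refine h2.congr (fun k => ?_)
  rw [hit k, norm_mul, norm_inv, Complex.norm_real, Real.norm_of_nonneg hp.le]

end H73.PT
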