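import Pool.Agent.H73.PT.ChC
import Pool.Agent.H73.PT.Scl

/-!
# [H73 PT UPP] the upper bound for all `d ≥ 2`

`d ≥ d0`: `main_scaled` for `T = up d P`, `P' = dn d T'`: `d Nd (P - P') = Fk (T - T')` (`dn_up`, `dn_sub`, `Nd_dn`; `Fk d (-S) = Fk d S`), `Fk d T/d = Nd d P`.
`2 ≤ d < d0`: `P' = X^d + C 3`: the critical point is `0`, its orbit is `3, 3^d + 3, ..` and `‖z^d + 3‖ ≥ ‖z‖² - 3 ≥ 2 ‖z‖` for `‖z‖ ≥ 3` (`esc_of` with `H = 3`, `k = 1`);
`Nd d P' = 10`, `Nd d (P - P') ≤ 2 Nd d P + 20 ≤ 20 (Nd d P + 1)` and `20 ≤ C (log d)²/d` if `C ≥ 20 d0/(log 2)²`.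
-/

set_option autoImplicit false

namespace H73.PT

open Polynomial
open Pool.Agent.H85.LD (Nd)

private theorem nd_nonneg (d : ℕ) (P : ℂ[X]) : 0 ≤ Nd d P := by
  unfold Nd
  exact Finset.sum_nonneg fun k _ => by positivity

private theorem nd_sub (d : ℕ) (P Q : ℂ[X]) : Nd d (P - Q) ≤ 2 * Nd d P + 2 * Nd d Q := by
  unfold Nd
  rw [Finset.mul_sum, Finset.mul_sum, ← Finset.sum_add_distrib]
  apply Finset.sum_le_sum
  intro k _
  have h1 : ‖(P - Q).coeff k‖ ≤ ‖P.coeff k‖ + ‖Q.coeff k‖ := by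
    rw [Polynomial.coeff_sub]
    exact norm_sub_le _ _
  have h2 : ‖(P - Q).coeff k‖ ^ 2 ≤ 2 * ‖P.coeff k‖ ^ 2 + 2 * ‖Q.coeff k‖ ^ 2 := by
    have h3 : ‖(P - Q).coeff k‖ ^ 2 ≤ (‖P.coeff k‖ + ‖Q.coeff k‖) ^ 2 :=
      pow_le_pow_left₀ (norm_nonneg _) h1 2
    nlinarith [sq_nonneg (‖P.coeff k‖ - ‖Q.coeff k‖)]
  calc ‖(P - Q).coeff k‖ ^ 2 / (d.choose k : ℝ)
      ≤ (2 * ‖P.coeff k‖ ^ 2 + 2 * ‖Q.coeff k‖ ^ 2) / (d.choose k : ℝ) := by
        apply div_le_div_of_nonneg_right h2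
        positivity
    _ = _ := by ring

private theorem nd_ex {d : ℕ} (hd : 2 ≤ d) : Nd d ((X : ℂ[X]) ^ d + C 3) ≤ 10 := by
  unfold Nd
  have h1 : ∀ k ∈ Finset.range (d + 1), ‖((X : ℂ[X]) ^ d + C 3).coeff k‖ ^ 2 / (d.choose k : ℝ) ≤
      (if k = d then 1 else 0) + (if k = 0 then 9 else 0) := by
    intro k _
    rw [Polynomial.coeff_add, Polynomial.coeff_X_pow, Polynomial.coeff_C]
    by_cases h2 : k = d
    · subst h2
      have h3 : k ≠ 0 := by omega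
      simp [h3]
    · by_cases h3 : k = 0
      · subst h3
        simp [h2]
        norm_num
      · simp [h2, h3]
  refine le_trans (Finset.sum_le_sum h1) ?_
  rw [Finset.sum_add_distrib, Finset.sum_ite_eq', Finset.sum_ite_eq']
  simp
  norm_num

private theorem esc_ex {d : ℕ} (hd : 2 ≤ d) : AllEsc ((X : ℂ[X]) ^ d + C 3) := by
  intro x hx
  have hx0 : x = 0 := by
    have h1 : (derivative ((X : ℂ[X]) ^ d + C 3)).eval x = (d : ℂ) * x ^ (d - 1) := by
      rw [Polynomial.derivative_add, Polynomial.derivative_C, Polynomial.derivative_X_pow]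
      simp
    rw [h1] at hx
    have h2 : (d : ℂ) ≠ 0 := by
      have : d ≠ 0 := by omega
      exact_mod_cast this
    have h3 := (mul_eq_zero.mp hx).resolve_left h2
    exact pow_eq_zero_iff (by omega : d - 1 ≠ 0) |>.mp h3
  subst hx0
  refine esc_of (H := 3) (k := 1) (by norm_num) ?_ ?_
  · intro s hs
    have h1 : ((X : ℂ[X]) ^ d + C 3).eval s = s ^ d + 3 := by simp
    rw [h1]
    have h2 : ‖s‖ ^ d ≤ ‖s ^ d + 3‖ + 3 := by
      have h3 : ‖s ^ d‖ ≤ ‖s ^ d + 3‖ + ‖(3 : ℂ)‖ := by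
        have h4 := norm_sub_le (s ^ d + 3) 3
        have h5 : s ^ d + 3 - 3 = s ^ d := by ring
        rwa [h5] at h4
      rw [norm_pow] at h3
      have h6 : ‖(3 : ℂ)‖ = 3 := by
        simp
      rw [h6] at h3
      exact h3
    have h3 : ‖s‖ ^ 2 ≤ ‖s‖ ^ d := pow_le_pow_right₀ (by linarith) hd
    nlinarith
  · have h1 : ((X : ℂ[X]) ^ d + C 3).eval 0 = 3 := by
      have : d ≠ 0 := by omega
      simp [this]
    rw [Function.iterate_one]
    show (3 : ℝ) ≤ ‖((X : ℂ[X]) ^ d + C 3).eval 0‖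
    rw [h1]
    simp

private theorem fk_symm (d : ℕ) (S T : ℂ[X]) : Fk d (S - T) = Fk d (T - S) := by
  unfold Fk
  apply Finset.sum_congr rfl
  intro k _
  rw [Polynomial.coeff_sub, Polynomial.coeff_sub, norm_sub_rev]

theorem upper : ∃ C : ℝ, 0 < C ∧ ∀ d : ℕ, 2 ≤ d → ∀ P : ℂ[X], P.natDegree ≤ d →
    ∃ P' : ℂ[X], P'.natDegree = d ∧ AllEsc P' ∧ Nd d (P - P') ≤ C * (Real.log d ^ 2 / d) * (Nd d P + 1) := by
  obtain ⟨C0, hC0, d0, hd0, hmain⟩ := main_scaled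
  have hlog2 : 0 < Real.log 2 := Real.log_pos (by norm_num)
  refine ⟨C0 + 20 * d0 / Real.log 2 ^ 2, by positivity, ?_⟩
  intro d hd P hP
  have hdpos : (0 : ℝ) < d := by
    have : 0 < d := by omega
    exact_mod_cast this
  have hN0 := nd_nonneg d P
  have hlogd : Real.log 2 ≤ Real.log d := by
    apply Real.log_le_log (by norm_num)
    exact_mod_cast hd
  by_cases hdd : d0 ≤ d
  · obtain ⟨T', h1, h2, h3⟩ := hmain d hdd (up d P) (by rw [deg_up (by omega)]; exact hP)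
    refine ⟨dn d T', by rw [deg_dn (by omega)]; exact h1, esc_dn (by omega) h2, ?_⟩
    have h4 : P - dn d T' = dn d (up d P - T') := by
      rw [dn_sub, dn_up (by omega)]
    have h5 : (d : ℝ) * Nd d (P - dn d T') = Fk d (T' - up d P) := by
      rw [h4, Nd_dn (by omega), fk_symm]
    have h6 : Fk d (up d P) / d = Nd d P := by
      rw [Fk_up (by omega)]
      field_simp
    rw [h6] at h3
    have h7 : (d : ℝ) * Nd d (P - dn d T') ≤ C0 * Real.log d ^ 2 * (1 + Nd d P) := by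
      rw [h5]; exact h3
    have h8 : Nd d (P - dn d T') ≤ C0 * Real.log d ^ 2 * (1 + Nd d P) / d := by
      rw [le_div_iff₀ hdpos]
      linarith
    refine le_trans h8 ?_
    have h9 : C0 * Real.log d ^ 2 * (1 + Nd d P) / d = C0 * (Real.log d ^ 2 / d) * (Nd d P + 1) := by
      ring
    rw [h9]
    have h10 : 0 ≤ (Real.log d ^ 2 / d) * (Nd d P + 1) := by positivity
    have h11 : 0 ≤ 20 * (d0 : ℝ) / Real.log 2 ^ 2 := by positivity
    have h12 := mul_nonneg h11 h10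
    have h13 : (C0 + 20 * d0 / Real.log 2 ^ 2) * (Real.log d ^ 2 / d) * (Nd d P + 1) =
      C0 * (Real.log d ^ 2 / d) * (Nd d P + 1) +
        20 * (d0 : ℝ) / Real.log 2 ^ 2 * ((Real.log d ^ 2 / d) * (Nd d P + 1)) := by ring
    rw [h13]
    linarith
  · refine ⟨X ^ d + C 3, ?_, esc_ex hd, ?_⟩
    · exact Polynomial.natDegree_X_pow_add_C
    · have h1 := nd_sub d P (X ^ d + C 3)
      have h2 := nd_ex hd
      have h3 : Nd d (P - (X ^ d + C 3)) ≤ 20 * (Nd d P + 1) := by linarith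
      refine le_trans h3 ?_
      apply mul_le_mul_of_nonneg_right _ (by linarith)
      have hd1 : (d : ℝ) ≤ d0 := by
        have : d ≤ d0 := by omega
        exact_mod_cast this
      have h4 : (20 : ℝ) ≤ 20 * d0 / Real.log 2 ^ 2 * (Real.log d ^ 2 / d) := by
        have h5 : 20 * (d0 : ℝ) / Real.log 2 ^ 2 * (Real.log d ^ 2 / d) =
            20 * ((d0 : ℝ) * Real.log d ^ 2) / (Real.log 2 ^ 2 * d) := by
          field_simp
        rw [h5, le_div_iff₀ (by positivity)]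
        have h6 : Real.log 2 ^ 2 ≤ Real.log d ^ 2 := pow_le_pow_left₀ hlog2.le hlogd 2
        have h7 : Real.log 2 ^ 2 * (d : ℝ) ≤ Real.log d ^ 2 * d0 :=
          mul_le_mul h6 hd1 hdpos.le (by positivity)
        linarith
      have h8 : 0 ≤ C0 * (Real.log d ^ 2 / d) := by positivity
      have h9 : (C0 + 20 * d0 / Real.log 2 ^ 2) * (Real.log d ^ 2 / d) =
        C0 * (Real.log d ^ 2 / d) + 20 * (d0 : ℝ) / Real.log 2 ^ 2 * (Real.log d ^ 2 / d) := by ring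
      rw [h9]
      linarith

end H73.PT
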